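import Mathlib

set_option autoImplicit false
open Polynomial

namespace Helper523.Herm

/-- physicists' Hermite polynomials over `ℂ` -/
noncomputable def He : ℕ → ℂ[X]
  | 0 => 1
  | (n+1) => C 2 * X * He n - derivative (He n)

lemma He_zero : He 0 = 1 := rfl
lemma He_succ (n : ℕ) : He (n+1) = C 2 * X * He n - derivative (He n) := rfl

lemma He_one : He 1 = C 2 * X := by
  rw [He_succ, He_zero]; simp

lemma deriv_He (n : ℕ) : derivative (He (n+1)) = C (2 * ((n:ℂ)+1)) * He n := by
  induction n with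
  | zero => rw [He_one, He_zero]; simp
  | succ n ih =>
    rw [He_succ (n+1)]
    rw [derivative_sub, derivative_mul, derivative_mul, ih]
    simp only [derivative_C, derivative_X, derivative_mul, zero_mul, mul_one, zero_add]
    have h1 : He (n+1) = C 2 * X * He n - derivative (He n) := He_succ n
    have h2 : (C (2 * (((n+1:ℕ):ℂ)+1)) : ℂ[X]) = C 2 + C (2 * ((n:ℂ)+1)) := by
      rw [← C_add]; congr 1; push_cast; ring
    rw [h2]
    linear_combination (- C (2 * ((n:ℂ)+1)) ) * h1

lemma He_rec (n : ℕ) : He (n+2) = C 2 * X * He (n+1) - C (2 * ((n:ℂ)+1)) * He n := by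
  rw [He_succ (n+1), deriv_He n]

/-- the (shifted) Hermite operator `Q ↦ X Q' - Q''/2 - c Q` -/
noncomputable def Lop (c : ℂ) (Q : ℂ[X]) : ℂ[X] :=
  X * derivative Q - C (1/2) * derivative (derivative Q) - C c * Q

lemma Lop_add (c : ℂ) (P Q : ℂ[X]) : Lop c (P + Q) = Lop c P + Lop c Q := by
  unfold Lop; simp only [derivative_add]; ring

lemma Lop_C_mul (c a : ℂ) (Q : ℂ[X]) : Lop c (C a * Q) = C a * Lop c Q := by
  unfold Lop; simp only [derivative_C_mul]; ring

lemma Lop_He (c : ℂ) (k : ℕ) : Lop c (He k) = C ((k:ℂ) - c) * He k := by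
  unfold Lop
  match k with
  | 0 => rw [He_zero]; simp
  | 1 =>
    rw [He_one]; simp
    ring
  | (j+2) =>
    have hd1 : derivative (He (j+2)) = C (2 * (((j:ℂ)+1)+1)) * He (j+1) := by
      have := deriv_He (j+1); push_cast at this; exact this
    have hd2 := deriv_He j
    rw [hd1, derivative_C_mul, hd2, He_rec j]
    have e1 : (C (2 * (((j:ℂ)+1)+1)) : ℂ[X]) = C 2 * (C (j:ℂ) + C 2) := by
      rw [← C_add, ← C_mul]; congr 1; ring
    have e2 : (C (2 * ((j:ℂ)+1)) : ℂ[X]) = C 2 * (C (j:ℂ) + C 1) := by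
      rw [← C_add, ← C_mul]
    have e3 : (C (((j+2:ℕ):ℂ) - c) : ℂ[X]) = C (j:ℂ) + C 2 - C c := by
      rw [← C_add, ← C_sub]; congr 1; push_cast; ring
    have e4 : (C (1/2) : ℂ[X]) * C 2 = 1 := by
      rw [← C_mul]; norm_num
    rw [e1, e2, e3]
    simp only [map_one]
    linear_combination (-(C (j:ℂ) + C 2) * (C 2 * (C (j:ℂ) + 1) * He j)) * e4

lemma natDegree_He_le (n : ℕ) : (He n).natDegree ≤ n ∧ (He n).coeff n = 2 ^ n := by
  induction n with
  | zero => rw [He_zero]; simp
  | succ n ih =>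
    rw [He_succ]
    have hmul : (C 2 * X * He n).natDegree ≤ n + 1 := by
      rw [mul_assoc]
      refine (natDegree_C_mul_le _ _).trans ?_
      refine (natDegree_mul_le).trans ?_
      have := natDegree_X_le (R := ℂ)
      omega
    have hder : (derivative (He n)).natDegree ≤ n := (natDegree_derivative_le _).trans (by omega)
    constructor
    · refine (natDegree_sub_le _ _).trans ?_
      exact max_le hmul (by omega)
    · rw [coeff_sub, mul_assoc, coeff_C_mul, coeff_X_mul, ih.2]
      have : (derivative (He n)).coeff (n+1) = 0 := coeff_eq_zero_of_natDegree_lt (by omega)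
      rw [this, pow_succ]; ring

lemma natDegree_He (n : ℕ) : (He n).natDegree = n := by
  refine le_antisymm (natDegree_He_le n).1 ?_
  apply le_natDegree_of_ne_zero
  rw [(natDegree_He_le n).2]; exact pow_ne_zero n two_ne_zero

lemma leadingCoeff_He (n : ℕ) : (He n).leadingCoeff = 2 ^ n := by
  rw [leadingCoeff, natDegree_He, (natDegree_He_le n).2]

lemma He_ne_zero (n : ℕ) : He n ≠ 0 := by
  intro h
  have := (natDegree_He_le n).2
  rw [h, coeff_zero] at this
  exact (pow_ne_zero n (two_ne_zero : (2:ℂ) ≠ 0)) this.symm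

/-- connection with the Rodrigues formula -/
lemma iteratedDeriv_gauss (n : ℕ) (z : ℂ) :
    iteratedDeriv n (fun w : ℂ => Complex.exp (-w ^ 2)) z
      = (-1 : ℂ) ^ n * (He n).eval z * Complex.exp (-z ^ 2) := by
  induction n generalizing z with
  | zero => simp [He_zero]
  | succ n ih =>
    rw [iteratedDeriv_succ]
    have hfun : iteratedDeriv n (fun w : ℂ => Complex.exp (-w ^ 2))
        = fun z => (-1 : ℂ) ^ n * (He n).eval z * Complex.exp (-z ^ 2) := funext ih
    rw [hfun]
    have h1 : HasDerivAt (fun z : ℂ => (He n).eval z) ((derivative (He n)).eval z) z :=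
      (He n).hasDerivAt z
    have h2 : HasDerivAt (fun z : ℂ => Complex.exp (-z ^ 2)) (Complex.exp (-z ^ 2) * (-(2 * z))) z := by
      have h3 : HasDerivAt (fun z : ℂ => -z ^ 2) (-(2 * z)) z := by
        have := (hasDerivAt_pow 2 z).fun_neg
        simpa using this
      exact h3.cexp
    have h4 := ((h1.const_mul ((-1 : ℂ) ^ n)).mul h2).deriv
    have h5 : deriv (fun z : ℂ => (-1 : ℂ) ^ n * (He n).eval z * Complex.exp (-z ^ 2)) z = _ := h4
    rw [h5, He_succ]
    simp only [eval_sub, eval_mul, eval_C, eval_X]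
    ring

lemma rodrigues (n : ℕ) (z : ℂ) :
    (-1 : ℂ) ^ n * Complex.exp (z ^ 2) * iteratedDeriv n (fun w : ℂ => Complex.exp (-w ^ 2)) z
      = (He n).eval z := by
  rw [iteratedDeriv_gauss]
  have h1 : ((-1 : ℂ) ^ n) * ((-1 : ℂ) ^ n) = 1 := by
    rw [← mul_pow]; norm_num
  have h2 : Complex.exp (z ^ 2) * Complex.exp (-z ^ 2) = 1 := by
    rw [← Complex.exp_add]; simp
  calc (-1 : ℂ) ^ n * Complex.exp (z ^ 2) * ((-1 : ℂ) ^ n * (He n).eval z * Complex.exp (-z ^ 2))
      = ((-1 : ℂ) ^ n * (-1 : ℂ) ^ n) * (Complex.exp (z ^ 2) * Complex.exp (-z ^ 2)) * (He n).eval z := by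
        ring
    _ = _ := by rw [h1, h2]; ring

/-- all zeros are real -/
lemma ratio_im (n : ℕ) (z : ℂ) (hz : 0 < z.im) :
    (He n).eval z ≠ 0 ∧ 0 < ((He (n+1)).eval z / (He n).eval z).im := by
  induction n with
  | zero =>
    rw [He_zero, He_one]; simp; exact hz
  | succ n ih =>
    obtain ⟨h0, h1⟩ := ih
    have hne : (He (n+1)).eval z ≠ 0 := by
      intro h; rw [h] at h1; simp at h1
    refine ⟨hne, ?_⟩
    rw [He_rec n]
    simp only [eval_sub, eval_mul, eval_C, eval_X]
    set u := (He (n+1)).eval z / (He n).eval z with hu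
    have hune : u ≠ 0 := div_ne_zero hne h0
    have e : (2 * z * (He (n+1)).eval z - 2 * ((n:ℂ)+1) * (He n).eval z) / (He (n+1)).eval z
        = 2 * z - ((2 * ((n:ℝ)+1) : ℝ) : ℂ) * u⁻¹ := by
      rw [hu]; field_simp; push_cast; ring
    rw [e]
    have him : (2 * z - ((2 * ((n:ℝ)+1) : ℝ) : ℂ) * u⁻¹).im
        = 2 * z.im + 2 * ((n:ℝ)+1) * (u.im / Complex.normSq u) := by
      rw [Complex.sub_im, Complex.im_ofReal_mul, Complex.inv_im]
      simp
      ring
    rw [him]
    have : 0 < Complex.normSq u := Complex.normSq_pos.mpr hune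
    positivity

lemma He_neg (n : ℕ) (z : ℂ) : (He n).eval (-z) = (-1) ^ n * (He n).eval z := by
  induction n using Nat.twoStepInduction with
  | zero => rw [He_zero]; simp
  | one => rw [He_one]; simp
  | more n ih1 ih2 =>
    rw [He_rec]
    simp only [eval_sub, eval_mul, eval_C, eval_X, ih1, ih2]
    ring

lemma root_real (n : ℕ) (z : ℂ) (hz : (He n).eval z = 0) : z.im = 0 := by
  rcases lt_trichotomy z.im 0 with h | h | h
  · exfalso
    have h1 : 0 < (-z).im := by simpa using h
    have h2 := (ratio_im n (-z) h1).1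
    rw [He_neg, hz] at h2
    simp at h2
  · exact h
  · exact absurd hz (ratio_im n z h).1

end Helper523.Herm
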