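import Pool.Agent.Helper523.Herm.Core

set_option autoImplicit false
open Polynomial Filter

namespace Helper523.Herm

/-- error factor -/
noncomputable def Er (ρ : ℝ) (m : ℕ) : ℝ := ((8 * ρ + 4) * (m:ℝ)^2) ^ 3 * 3

lemma Er_nonneg (ρ : ℝ) (hρ : 0 ≤ ρ) (m : ℕ) : 0 ≤ Er ρ m := by unfold Er; positivity

/-- both estimates for a quadrinomial without zeros in `|ζ| < 16ρ` -/
lemma key (n m : ℕ) (hn : 2 ≤ n) (hnm : n < m) (a b : ℂ) (ρ : ℝ) (hρ : 1 ≤ ρ)
    (hz : ∀ ζ, (Fq n m a b).eval ζ = 0 → 16 * ρ ≤ ‖ζ‖) :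
    ‖a‖ * G n ρ ≤ Er ρ m * ‖(Fq n m a b).eval 0‖ * Real.exp (-(ρ * Real.sqrt (2 * n)) + 15 * ρ ^ 2) ∧
    ‖b‖ * G m ρ ≤ Er ρ m * ‖(Fq n m a b).eval 0‖ * Real.exp (-(ρ * Real.sqrt (2 * m)) + 15 * ρ ^ 2) := by
  have hF : ∀ z, ‖z‖ ≤ 8 * ρ → (Fq n m a b).eval z ≠ 0 := by
    intro z hzr h
    have := hz z h
    linarith
  have hz' : ∀ ζ, (Fq n m a b).eval ζ = 0 → 2 * (8 * ρ) ≤ ‖ζ‖ := by
    intro ζ h; have := hz ζ h; linarith
  have hE := Er_nonneg ρ (by linarith) m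
  constructor
  · apply main_est (Fq n m a b) n a ρ (Er ρ m) hρ hE hF
    intro z hzr
    exact (term_bounds n m hn hnm a b (8 * ρ) (by linarith) hz' z hzr.le).1
  · apply main_est (Fq n m a b) m b ρ (Er ρ m) hρ hE hF
    intro z hzr
    exact (term_bounds n m hn hnm a b (8 * ρ) (by linarith) hz' z hzr.le).2

lemma eval_Fq_zero_le (n m : ℕ) (a b : ℂ) (ρ : ℝ) (hρ : 0 ≤ ρ) :
    ‖(Fq n m a b).eval 0‖ ≤ 1 + ‖a‖ * G n ρ + ‖b‖ * G m ρ := by
  rw [eval_Fq]
  refine (norm_add_le _ _).trans (add_le_add ((norm_add_le _ _).trans (add_le_add ?_ ?_)) ?_)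
  · simp
  · rw [norm_mul]; exact mul_le_mul_of_nonneg_left (norm_He_le' n 0 ρ (by simpa using hρ)) (norm_nonneg _)
  · rw [norm_mul]; exact mul_le_mul_of_nonneg_left (norm_He_le' m 0 ρ (by simpa using hρ)) (norm_nonneg _)

/-- Case A, conditional on smallness of the error -/
lemma caseA (n m : ℕ) (hn : 2 ≤ n) (hnm : n < m) (a b : ℂ)
    (hsmall : Er 1 m * Real.exp (-(1 * Real.sqrt (2 * n)) + 15 * 1 ^ 2) ≤ 1/16) :
    ∃ z : ℂ, ‖z‖ ≤ 16 ∧ (Fq n m a b).eval z = 0 := by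
  by_contra hcon
  push Not at hcon
  have hz : ∀ ζ, (Fq n m a b).eval ζ = 0 → 16 * 1 ≤ ‖ζ‖ := by
    intro ζ h
    by_contra hlt
    push Not at hlt
    exact hcon ζ (by linarith) h
  obtain ⟨h1, h2⟩ := key n m hn hnm a b 1 le_rfl hz
  set Fz := ‖(Fq n m a b).eval 0‖ with hFz
  have hFnn : 0 ≤ Fz := norm_nonneg _
  have hexp : Real.exp (-(1 * Real.sqrt (2 * m)) + 15 * 1 ^ 2)
      ≤ Real.exp (-(1 * Real.sqrt (2 * n)) + 15 * 1 ^ 2) := by
    apply Real.exp_le_exp.mpr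
    have : Real.sqrt (2 * n) ≤ Real.sqrt (2 * m) := by
      apply Real.sqrt_le_sqrt
      have : (n:ℝ) ≤ m := by exact_mod_cast hnm.le
      linarith
    linarith
  have hE := Er_nonneg 1 (by norm_num) m
  have h1' : ‖a‖ * G n 1 ≤ 1/16 * Fz := by
    refine h1.trans ?_
    calc _ = (Er 1 m * Real.exp (-(1 * Real.sqrt (2 * n)) + 15 * 1 ^ 2)) * Fz := by ring
      _ ≤ _ := mul_le_mul_of_nonneg_right hsmall hFnn
  have h2' : ‖b‖ * G m 1 ≤ 1/16 * Fz := by
    refine h2.trans ?_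
    calc _ = (Er 1 m * Real.exp (-(1 * Real.sqrt (2 * m)) + 15 * 1 ^ 2)) * Fz := by ring
      _ ≤ (Er 1 m * Real.exp (-(1 * Real.sqrt (2 * n)) + 15 * 1 ^ 2)) * Fz :=
        mul_le_mul_of_nonneg_right (mul_le_mul_of_nonneg_left hexp hE) hFnn
      _ ≤ _ := mul_le_mul_of_nonneg_right hsmall hFnn
  have h3 := eval_Fq_zero_le n m a b 1 (by norm_num)
  rw [← hFz] at h3
  have h4 : Fz ≤ 8/7 := by linarith
  have hsum : ∀ z : ℂ, ‖z‖ ≤ 1 → ‖a * (He n).eval z + b * (He m).eval z‖ ≤ 1/7 := by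
    intro z hz1
    refine (norm_add_le _ _).trans ?_
    rw [norm_mul, norm_mul]
    have e1 : ‖a‖ * ‖(He n).eval z‖ ≤ ‖a‖ * G n 1 :=
      mul_le_mul_of_nonneg_left (norm_He_le' n z 1 hz1) (norm_nonneg _)
    have e2 : ‖b‖ * ‖(He m).eval z‖ ≤ ‖b‖ * G m 1 :=
      mul_le_mul_of_nonneg_left (norm_He_le' m z 1 hz1) (norm_nonneg _)
    linarith
  have hmin := min_principle (Fq n m a b) (-1/2) (1/2) (6/7) (by norm_num) (by
    intro z hz1
    apply hcon
    have := norm_sub_norm_le z (-1/2 : ℂ)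
    have h5 : ‖(-1/2 : ℂ)‖ = 1/2 := by norm_num
    rw [h5] at this
    linarith) (by
    intro z hz1
    have hzle : ‖z‖ ≤ 1 := by
      have := norm_sub_norm_le z (-1/2 : ℂ)
      have h5 : ‖(-1/2 : ℂ)‖ = 1/2 := by norm_num
      rw [h5] at this
      linarith
    rw [eval_Fq]
    have e1 : ‖(1:ℂ) + 2 * z‖ = 1 := by
      have : (1:ℂ) + 2 * z = 2 * (z - (-1/2)) := by ring
      rw [this, norm_mul, hz1]; norm_num
    have e2 := hsum z hzle
    have e3 : ‖(1:ℂ) + 2 * z + a * (He n).eval z + b * (He m).eval z‖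
        ≥ ‖(1:ℂ) + 2 * z‖ - ‖a * (He n).eval z + b * (He m).eval z‖ := by
      have := norm_sub_le (1 + 2 * z + a * (He n).eval z + b * (He m).eval z)
        (a * (He n).eval z + b * (He m).eval z)
      have e4 : (1 + 2 * z + a * (He n).eval z + b * (He m).eval z)
        - (a * (He n).eval z + b * (He m).eval z) = 1 + 2 * z := by ring
      rw [e4] at this
      linarith
    linarith)
  rw [eval_Fq] at hmin
  have e5 : (1:ℂ) + 2 * (-1/2) + a * (He n).eval (-1/2) + b * (He m).eval (-1/2)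
      = a * (He n).eval (-1/2) + b * (He m).eval (-1/2) := by ring
  rw [e5] at hmin
  have := hsum (-1/2) (by norm_num)
  linarith

/-- Case C: bounded degree -/
lemma caseC (M n m : ℕ) (hn : 2 ≤ n) (hnm : n < m) (hmM : m ≤ M) (a b : ℂ) :
    ∃ z : ℂ, ‖z‖ ≤ 2 + 40 * M ∧ (Fq n m a b).eval z = 0 := by
  by_contra hcon
  push Not at hcon
  have hn' : (2:ℝ) ≤ n := by exact_mod_cast hn
  have hm' : (3:ℝ) ≤ m := by exact_mod_cast (by omega : 3 ≤ m)
  have hM' : (m:ℝ) ≤ M := by exact_mod_cast hmM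
  set F := Fq n m a b with hFdef
  set x : ℝ := -(n * m / (2 * ((n - 1) * (m - 1)))) with hx
  have hden : 0 < ((n:ℝ) - 1) * (m - 1) := by nlinarith
  have hxle : |x| ≤ 2 := by
    rw [hx, abs_neg, abs_of_nonneg (by positivity), div_le_iff₀ (by positivity)]
    nlinarith
  set z₁ : ℂ := (x : ℂ) with hz₁
  have hz₁n : ‖z₁‖ ≤ 2 := by rw [hz₁, Complex.norm_real]; exact hxle
  -- vanishing
  have hvan : (Lop (m:ℂ) (Lop (n:ℂ) F)).eval z₁ = 0 := by
    rw [hFdef, extract_01, He_one]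
    simp only [eval_add, eval_mul, eval_C, eval_X]
    rw [hz₁, hx]
    have h1 : ((n:ℂ) - 1) ≠ 0 := by
      have : ((n:ℝ) - 1) ≠ 0 := by linarith
      exact_mod_cast this
    have h2 : ((m:ℂ) - 1) ≠ 0 := by
      have : ((m:ℝ) - 1) ≠ 0 := by linarith
      exact_mod_cast this
    push_cast
    field_simp
    ring
  -- F near z₁
  set s : ℝ := 20 with hs
  have hdeg := natDegree_Fq n m hnm.le (by omega) a b
  set B : ℝ := 3 * ‖F.eval z₁‖ with hB
  have hBnn : 0 ≤ B := by positivity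
  have hMpos : (0:ℝ) < M := by linarith
  have h0 : ∀ w, ‖w - z₁‖ ≤ s + s → ‖F.eval w‖ ≤ B := by
    intro w hw
    have h1 := growth F m hdeg z₁ w (40 * M) (by positivity) (by
      intro ζ hζ
      have h2 : 2 + 40 * (M:ℝ) < ‖ζ‖ := by
        by_contra hle
        push Not at hle
        exact hcon ζ hle hζ
      have h3 := norm_sub_norm_le ζ z₁
      rw [norm_sub_rev] at h3
      linarith)
    refine h1.trans (mul_le_mul_of_nonneg_right ?_ (norm_nonneg _))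
    have hm0 : (0:ℝ) < m := by linarith
    have h3 : 1 + ‖w - z₁‖ / (40 * M) ≤ 1 + 1 / m := by
      have : ‖w - z₁‖ / (40 * M) ≤ 1 / m := by
        rw [div_le_div_iff₀ (by positivity) hm0]
        rw [hs] at hw
        nlinarith [norm_nonneg (w - z₁)]
      linarith
    have h4 : (1 + ‖w - z₁‖ / (40 * M)) ^ m ≤ (1 + 1 / (m:ℝ)) ^ m := by
      apply pow_le_pow_left₀ _ h3
      positivity
    refine h4.trans ?_
    have h5 : (1 + 1 / (m:ℝ)) ^ m ≤ Real.exp 1 := by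
      have h6 : 1 + 1 / (m:ℝ) ≤ Real.exp (1 / m) := by
        have := Real.add_one_le_exp (1 / (m:ℝ)); linarith
      calc (1 + 1 / (m:ℝ)) ^ m ≤ (Real.exp (1 / m)) ^ m := pow_le_pow_left₀ (by positivity) h6 m
        _ = Real.exp 1 := by
          rw [← Real.exp_nat_mul]; congr 1; field_simp
    exact h5.trans (by have := Real.exp_one_lt_d9; linarith)
  have hL0 : ‖(Lop 0 F).eval z₁‖ ≤ 3 / 20 * B := by
    have := Lop_bound 0 F z₁ s s B (by norm_num) h0 z₁ (by simp [hs])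
    refine this.trans (mul_le_mul_of_nonneg_right ?_ hBnn)
    rw [norm_zero, hs]
    have : ‖z₁‖ / 20 ≤ 2 / 20 := by linarith
    norm_num
    linarith
  have hLn : ∀ w, ‖w - z₁‖ ≤ 0 + s → ‖(Lop (n:ℂ) F).eval w‖ ≤ (n + 3) * B := by
    intro w hw
    have := Lop_bound (n:ℂ) F z₁ s s B (by norm_num) h0 w (by linarith)
    refine this.trans (mul_le_mul_of_nonneg_right ?_ hBnn)
    have h3 := norm_sub_norm_le w z₁
    have h4 : ‖w‖ ≤ 22 := by rw [hs] at hw; linarith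
    rw [Complex.norm_natCast, hs]
    have : ‖w‖ / 20 ≤ 22 / 20 := by linarith
    norm_num
    linarith
  have hL0n : ‖(Lop 0 (Lop (n:ℂ) F)).eval z₁‖ ≤ 3 / 20 * ((n + 3) * B) := by
    have := Lop_bound 0 (Lop (n:ℂ) F) z₁ 0 s _ (by norm_num) hLn z₁ (by simp)
    refine this.trans (mul_le_mul_of_nonneg_right ?_ (by positivity))
    rw [norm_zero, hs]
    have : ‖z₁‖ / 20 ≤ 2 / 20 := by linarith
    norm_num
    linarith
  -- combine
  have hcomb : (Lop (m:ℂ) (Lop (n:ℂ) F)).eval z₁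
      = (Lop 0 (Lop (n:ℂ) F)).eval z₁ - m * (Lop 0 F).eval z₁ + m * n * F.eval z₁ := by
    unfold Lop
    simp only [eval_sub, eval_mul, eval_C, eval_X, map_zero, zero_mul, sub_zero, derivative_sub,
      derivative_mul, derivative_X, derivative_C, one_mul, zero_add, eval_add]
    ring
  rw [hvan] at hcomb
  have h9 : (m:ℂ) * n * F.eval z₁ = m * (Lop 0 F).eval z₁ - (Lop 0 (Lop (n:ℂ) F)).eval z₁ := by
    linear_combination -hcomb
  have h10 : (m:ℝ) * n * ‖F.eval z₁‖ ≤ m * (3/20 * B) + 3/20 * ((n+3) * B) := by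
    have e1 : (m:ℝ) * n * ‖F.eval z₁‖ = ‖(m:ℂ) * n * F.eval z₁‖ := by
      rw [norm_mul, norm_mul, Complex.norm_natCast, Complex.norm_natCast]
    rw [e1, h9]
    refine (norm_sub_le _ _).trans (add_le_add ?_ hL0n)
    rw [norm_mul, Complex.norm_natCast]
    exact mul_le_mul_of_nonneg_left hL0 (by positivity)
  have hFpos : 0 < ‖F.eval z₁‖ := norm_pos_iff.mpr (hcon z₁ (by linarith))
  rw [hB] at h10
  have h11 : (m:ℝ) * n * ‖F.eval z₁‖ ≤ (9/20 * (m + n + 3)) * ‖F.eval z₁‖ := by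
    calc _ ≤ _ := h10
      _ = _ := by ring
  have h12 := le_of_mul_le_mul_right h11 hFpos
  nlinarith

end Helper523.Herm
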