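import Pool.Agent.Helper523.Herm.GFun

set_option autoImplicit false
open Polynomial

namespace Helper523.Herm

/-- maximum principle for a quotient of polynomials -/
lemma max_quot (A F : ℂ[X]) (w : ℂ) (s K : ℝ) (hs : 0 < s)
    (hF : ∀ z, ‖z - w‖ ≤ s → F.eval z ≠ 0)
    (hK : ∀ z, ‖z - w‖ = s → ‖A.eval z‖ ≤ K * ‖F.eval z‖) :
    ‖A.eval w‖ ≤ K * ‖F.eval w‖ := by
  have hcl : closure (Metric.ball w s) = Metric.closedBall w s := closure_ball w hs.ne'
  have hd : DiffContOnCl ℂ (fun z => A.eval z * (F.eval z)⁻¹) (Metric.ball w s) := by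
    have h1 : DiffContOnCl ℂ (fun z => A.eval z) (Metric.ball w s) := A.differentiable.diffContOnCl
    have h2 : DiffContOnCl ℂ (fun z => F.eval z) (Metric.ball w s) := F.differentiable.diffContOnCl
    have h3 : DiffContOnCl ℂ (fun z => F.eval z)⁻¹ (Metric.ball w s) := by
      apply h2.inv
      intro z hz
      rw [hcl, mem_closedBall_iff_norm] at hz
      exact hF z hz
    exact h1.smul h3
  have h := Complex.norm_le_of_forall_mem_frontier_norm_le Metric.isBounded_ball hd (C := K) (by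
    intro z hz
    rw [frontier_ball w hs.ne', mem_sphere_iff_norm] at hz
    rw [norm_mul, norm_inv]
    have hpos : 0 < ‖F.eval z‖ := norm_pos_iff.mpr (hF z hz.le)
    rw [← div_eq_mul_inv, div_le_iff₀ hpos]
    exact hK z hz) (z := w) (by rw [hcl]; exact Metric.mem_closedBall_self hs.le)
  have hpos : 0 < ‖F.eval w‖ := norm_pos_iff.mpr (hF w (by simp; exact hs.le))
  rw [norm_mul, norm_inv, ← div_eq_mul_inv, div_le_iff₀ hpos] at h
  exact h

lemma min_principle (F : ℂ[X]) (w : ℂ) (s c : ℝ) (hs : 0 < s)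
    (hF : ∀ z, ‖z - w‖ ≤ s → F.eval z ≠ 0)
    (hc : ∀ z, ‖z - w‖ = s → c ≤ ‖F.eval z‖) : c ≤ ‖F.eval w‖ := by
  by_cases h0 : c ≤ 0
  · exact h0.trans (norm_nonneg _)
  push Not at h0
  have := max_quot (1 : ℂ[X]) F w s (1 / c) hs hF (by
    intro z hz
    simp only [eval_one, norm_one]
    rw [div_mul_eq_mul_div, one_mul, le_div_iff₀ h0, one_mul]
    exact hc z hz)
  simp only [eval_one, norm_one] at this
  rw [div_mul_eq_mul_div, one_mul, le_div_iff₀ h0, one_mul] at this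
  exact this

/-- reflected product -/
noncomputable def Astar (r : ℝ) (s : Multiset ℂ) : ℂ[X] :=
  (s.map (fun x : ℂ => if ‖x‖ < r then C (r:ℂ) - C (x / (r:ℂ)) * X else X - C x)).prod

lemma Astar_sphere (r : ℝ) (hr : 0 < r) (s : Multiset ℂ) (hs : ∀ x ∈ s, x.im = 0) (z : ℂ) (hz : ‖z‖ = r) :
    ‖(Astar r s).eval z‖ = ‖(s.map (z - ·)).prod‖ := by
  induction s using Multiset.induction_on with
  | empty => simp [Astar]
  | cons a s ih =>
    have ih' := ih (fun x hx => hs x (Multiset.mem_cons_of_mem hx))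
    have ha := hs a (Multiset.mem_cons_self a s)
    have e : Astar r (a ::ₘ s) = (if ‖a‖ < r then C (r:ℂ) - C (a / (r:ℂ)) * X else X - C a) * Astar r s := by
      unfold Astar; rw [Multiset.map_cons, Multiset.prod_cons]
    rw [e, eval_mul, norm_mul, Multiset.map_cons, Multiset.prod_cons, norm_mul, ih']
    congr 1
    split_ifs with h
    · simp only [eval_sub, eval_mul, eval_C, eval_X]
      have hr' : (r:ℂ) ≠ 0 := by exact_mod_cast hr.ne'
      have hzz : z * (starRingEnd ℂ) z = (r:ℂ)^2 := by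
        rw [Complex.mul_conj, Complex.normSq_eq_norm_sq, hz]; push_cast; rfl
      have haconj : (starRingEnd ℂ) a = a := Complex.conj_eq_iff_im.mpr ha
      have e2 : (r:ℂ) - a / r * z = z * (starRingEnd ℂ) (z - a) / r := by
        rw [map_sub, haconj, mul_sub, hzz]; field_simp
      rw [e2, norm_div, norm_mul, RCLike.norm_conj, hz, Complex.norm_real, Real.norm_of_nonneg hr.le]
      field_simp
    · simp

lemma Astar_zero (r : ℝ) (hr : 0 < r) (s : Multiset ℂ) :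
    ‖(Astar r s).eval 0‖ = (s.map (fun x => max r ‖x‖)).prod := by
  induction s using Multiset.induction_on with
  | empty => simp [Astar]
  | cons a s ih =>
    have e : Astar r (a ::ₘ s) = (if ‖a‖ < r then C (r:ℂ) - C (a / (r:ℂ)) * X else X - C a) * Astar r s := by
      unfold Astar; rw [Multiset.map_cons, Multiset.prod_cons]
    rw [e, eval_mul, norm_mul, Multiset.map_cons, Multiset.prod_cons, ih]
    congr 1
    split_ifs with h
    · simp [abs_of_pos hr, max_eq_left h.le]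
    · push Not at h
      simp [max_eq_right h]

lemma jensen (s : Multiset ℂ) (hs : ∀ x ∈ s, x.im = 0) (F : ℂ[X]) (r K : ℝ) (hr : 0 < r)
    (hF : ∀ z, ‖z‖ ≤ r → F.eval z ≠ 0)
    (hK : ∀ z, ‖z‖ = r → ‖(s.map (z - ·)).prod‖ ≤ K * ‖F.eval z‖) :
    (s.map (fun x => max r ‖x‖)).prod ≤ K * ‖F.eval 0‖ := by
  rw [← Astar_zero r hr s]
  apply max_quot (Astar r s) F 0 r K hr
  · intro z hz; exact hF z (by simpa using hz)
  · intro z hz
    have hz' : ‖z‖ = r := by simpa using hz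
    rw [Astar_sphere r hr s hs z hz']
    exact hK z hz'

lemma factor_ineq (r : ℝ) (hr : 0 < r) (x : ℂ) (hx : x.im = 0) :
    ‖Complex.I * ((r/2 : ℝ):ℂ) - x‖ ^ 6 ≤ (max r ‖x‖) ^ 4 * ‖Complex.I * (r:ℂ) - x‖ ^ 2 := by
  have h1 : ∀ y : ℝ, ‖Complex.I * (y:ℂ) - x‖ ^ 2 = x.re ^ 2 + y ^ 2 := by
    intro y
    rw [← Complex.normSq_eq_norm_sq, Complex.normSq_apply]
    simp [hx]; ring
  have h2 : ‖x‖ ^ 2 = x.re ^ 2 := by
    rw [← Complex.normSq_eq_norm_sq, Complex.normSq_apply, hx]; ring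
  have e6 : ‖Complex.I * ((r/2 : ℝ):ℂ) - x‖ ^ 6 = (x.re ^ 2 + (r/2) ^ 2) ^ 3 := by
    rw [← h1 (r/2), ← pow_mul]
  rw [e6, h1 r]
  have hx2 : 0 ≤ x.re ^ 2 := sq_nonneg _
  rcases le_total ‖x‖ r with h | h
  · rw [max_eq_left h]
    have h3 : x.re ^ 2 ≤ r ^ 2 := by
      rw [← h2]; exact pow_le_pow_left₀ (norm_nonneg _) h 2
    set t := x.re ^ 2
    set q := r ^ 2 with hq
    have e4 : r ^ 4 = q ^ 2 := by rw [hq]; ring
    have e2 : (r/2) ^ 2 = q / 4 := by rw [hq]; ring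
    rw [e4, e2]
    have hq0 : 0 < q := by positivity
    have : (t + q / 4) ^ 3 ≤ q ^ 2 * (t + q) := by
      have h5 : (t + q / 4) ^ 2 ≤ (5 * q / 4) ^ 2 := pow_le_pow_left₀ (by positivity) (by linarith) 2
      -- (t+q/4)^3 ≤ (25/16) q² (t + q/4); compare with q²(t+q): (9/16) t ≤ (39/64) q
      have h6 : (t + q / 4) ^ 3 ≤ (5 * q / 4) ^ 2 * (t + q / 4) := by
        have := mul_le_mul_of_nonneg_right h5 (by positivity : 0 ≤ t + q / 4)
        calc (t + q / 4) ^ 3 = (t + q / 4) ^ 2 * (t + q / 4) := by ring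
          _ ≤ _ := this
      refine h6.trans ?_
      have h7 : (5 * q / 4) ^ 2 * (t + q / 4) = q ^ 2 * (25/16 * (t + q/4)) := by ring
      rw [h7]
      apply mul_le_mul_of_nonneg_left _ (by positivity)
      linarith
    exact this
  · rw [max_eq_right h]
    have h3 : r ^ 2 ≤ x.re ^ 2 := by
      rw [← h2]; exact pow_le_pow_left₀ hr.le h 2
    have e4 : ‖x‖ ^ 4 = (x.re ^ 2) ^ 2 := by rw [← h2]; ring
    rw [e4]
    set t := x.re ^ 2
    set q := r ^ 2 with hq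
    have e2 : (r/2) ^ 2 = q / 4 := by rw [hq]; ring
    rw [e2]
    have hq0 : 0 < q := by positivity
    have ht0 : 0 < t := lt_of_lt_of_le hq0 h3
    have e : t ^ 2 * (t + q) - (t + q / 4) ^ 3 = q * (t ^ 2 / 4 - 3/16 * t * q - q ^ 2 / 64) := by ring
    have h8 : 0 ≤ t ^ 2 / 4 - 3/16 * t * q - q ^ 2 / 64 := by nlinarith
    nlinarith [mul_nonneg hq0.le h8]

lemma prod_ineq (r : ℝ) (hr : 0 < r) (s : Multiset ℂ) (hs : ∀ x ∈ s, x.im = 0) :
    ‖(s.map (Complex.I * ((r/2 : ℝ):ℂ) - ·)).prod‖ ^ 6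
      ≤ ((s.map (fun x => max r ‖x‖)).prod) ^ 4 * ‖(s.map (Complex.I * (r:ℂ) - ·)).prod‖ ^ 2 := by
  induction s using Multiset.induction_on with
  | empty => simp
  | cons a s ih =>
    have ih' := ih (fun x hx => hs x (Multiset.mem_cons_of_mem hx))
    have ha := factor_ineq r hr a (hs a (Multiset.mem_cons_self a s))
    simp only [Multiset.map_cons, Multiset.prod_cons, norm_mul]
    rw [mul_pow, mul_pow, mul_pow]
    calc _ ≤ ((max r ‖a‖) ^ 4 * ‖Complex.I * (r:ℂ) - a‖ ^ 2) *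
          (((s.map (fun x => max r ‖x‖)).prod) ^ 4 * ‖(s.map (Complex.I * (r:ℂ) - ·)).prod‖ ^ 2) :=
          mul_le_mul ha ih' (by positivity) (by positivity)
      _ = _ := by ring

lemma He_eval_prod (k : ℕ) (z : ℂ) :
    ‖(He k).eval z‖ = 2 ^ k * ‖((He k).roots.map (z - ·)).prod‖ := by
  rw [(IsAlgClosed.splits (He k)).eval_eq_prod_roots z, norm_mul, leadingCoeff_He]
  simp

lemma He_roots_real (k : ℕ) : ∀ x ∈ (He k).roots, x.im = 0 := by
  intro x hx
  exact root_real k x ((mem_roots (He_ne_zero k)).mp hx)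

/-- main estimate -/
lemma main_est (F : ℂ[X]) (k : ℕ) (c : ℂ) (ρ Y : ℝ) (hρ : 1 ≤ ρ) (hY : 0 ≤ Y)
    (hF : ∀ z, ‖z‖ ≤ 8 * ρ → F.eval z ≠ 0)
    (hc : ∀ z, ‖z‖ = 8 * ρ → ‖c‖ * ‖(He k).eval z‖ ≤ Y * ‖F.eval z‖) :
    ‖c‖ * G k ρ ≤ Y * ‖F.eval 0‖ * Real.exp (-(ρ * Real.sqrt (2 * k)) + 15 * ρ ^ 2) := by
  by_cases hc0 : c = 0
  · rw [hc0, norm_zero, zero_mul]; positivity
  have hcpos : 0 < ‖c‖ := norm_pos_iff.mpr hc0
  set r : ℝ := 8 * ρ with hr
  have hrpos : 0 < r := by positivity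
  set M : ℝ := 2 ^ k * ((He k).roots.map (fun x => max r ‖x‖)).prod with hM
  have hprodnn : 0 ≤ ((He k).roots.map (fun x => max r ‖x‖)).prod := by
    apply Multiset.prod_nonneg
    intro x hx
    rw [Multiset.mem_map] at hx
    obtain ⟨y, _, rfl⟩ := hx
    exact le_max_of_le_left hrpos.le
  have h1 : ‖c‖ * M ≤ Y * ‖F.eval 0‖ := by
    have h2 := jensen (He k).roots (He_roots_real k) F r (Y / (‖c‖ * 2 ^ k)) hrpos hF (by
      intro z hz
      have h3 := hc z hz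
      rw [He_eval_prod] at h3
      rw [div_mul_eq_mul_div, le_div_iff₀ (by positivity)]
      linarith)
    rw [div_mul_eq_mul_div, le_div_iff₀ (by positivity)] at h2
    rw [hM]; linarith
  have hMnn : 0 ≤ M := by positivity
  set g := G k (r/2) with hg
  set h := G k r with hh
  have hgpos : 0 < g := G_pos k _ (by positivity)
  have hhpos : 0 < h := G_pos k _ (by positivity)
  have h6 : g ^ 6 ≤ M ^ 4 * h ^ 2 := by
    have := prod_ineq r hrpos (He k).roots (He_roots_real k)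
    have e1 : g = 2 ^ k * ‖((He k).roots.map (Complex.I * ((r/2 : ℝ):ℂ) - ·)).prod‖ := by
      rw [← He_eval_prod, norm_He_I k (r/2) (by positivity)]
    have e2 : h = 2 ^ k * ‖((He k).roots.map (Complex.I * (r:ℂ) - ·)).prod‖ := by
      rw [← He_eval_prod, norm_He_I k r hrpos.le]
    rw [e1, e2, hM]
    calc _ = ((2:ℝ) ^ k) ^ 6 * ‖((He k).roots.map (Complex.I * ((r/2 : ℝ):ℂ) - ·)).prod‖ ^ 6 := by ring
      _ ≤ ((2:ℝ) ^ k) ^ 6 * _ := mul_le_mul_of_nonneg_left this (by positivity)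
      _ = _ := by ring
  set S := Real.sqrt (2 * k) with hS
  have hup : h ≤ Real.exp (S * (r / 2)) * g := by
    have := G_upper k (r/2) r (by rw [hr]; linarith) (by linarith)
    have e : r - r / 2 = r / 2 := by ring
    rw [e] at this; exact this
  set W := Y * ‖F.eval 0‖ with hW
  have hWnn : 0 ≤ W := by positivity
  have h4 : (‖c‖ * g) ^ 4 ≤ (W * Real.exp (S * (r / 4))) ^ 4 := by
    have e1 : (‖c‖ * M) ^ 4 ≤ W ^ 4 := pow_le_pow_left₀ (by positivity) h1 4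
    have e2 : h ^ 2 ≤ (Real.exp (S * (r / 2)) * g) ^ 2 := pow_le_pow_left₀ hhpos.le hup 2
    have e3 : ‖c‖ ^ 4 * g ^ 6 ≤ W ^ 4 * (Real.exp (S * (r / 2)) * g) ^ 2 := by
      calc ‖c‖ ^ 4 * g ^ 6 ≤ ‖c‖ ^ 4 * (M ^ 4 * h ^ 2) := mul_le_mul_of_nonneg_left h6 (by positivity)
        _ = (‖c‖ * M) ^ 4 * h ^ 2 := by ring
        _ ≤ W ^ 4 * (Real.exp (S * (r / 2)) * g) ^ 2 := mul_le_mul e1 e2 (by positivity) (by positivity)
    have e4 : (Real.exp (S * (r / 2))) ^ 2 = (Real.exp (S * (r / 4))) ^ 4 := by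
      rw [← Real.exp_nat_mul, ← Real.exp_nat_mul]; congr 1; push_cast; ring
    have e5 : (‖c‖ * g) ^ 4 * g ^ 2 ≤ (W * Real.exp (S * (r / 4))) ^ 4 * g ^ 2 := by
      calc (‖c‖ * g) ^ 4 * g ^ 2 = ‖c‖ ^ 4 * g ^ 6 := by ring
        _ ≤ _ := e3
        _ = W ^ 4 * (Real.exp (S * (r / 2))) ^ 2 * g ^ 2 := by ring
        _ = _ := by rw [e4]; ring
    exact le_of_mul_le_mul_right e5 (by positivity)
  have h5 : ‖c‖ * g ≤ W * Real.exp (S * (r / 4)) :=
    le_of_pow_le_pow_left₀ (by norm_num) (by positivity) h4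
  have hlow := G_lower k ρ (r/2) hρ (by rw [hr]; linarith)
  rw [← hg, ← hS] at hlow
  have e7 : S * (r / 2 - ρ) - ((r/2) ^ 2 - ρ ^ 2) = 3 * (S * ρ) - 15 * ρ ^ 2 := by
    rw [hr]; ring
  rw [e7] at hlow
  have e8 : S * (r / 4) = 2 * (S * ρ) := by rw [hr]; ring
  rw [e8] at h5
  have e9 : Real.exp (-(ρ * S) + 15 * ρ ^ 2) = Real.exp (2 * (S * ρ)) * Real.exp (-(3 * (S * ρ) - 15 * ρ ^ 2)) := by
    rw [← Real.exp_add]; congr 1; ring
  rw [e9]
  have e10 : G k ρ = (G k ρ * Real.exp (3 * (S * ρ) - 15 * ρ ^ 2)) * Real.exp (-(3 * (S * ρ) - 15 * ρ ^ 2)) := by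
    rw [mul_assoc, ← Real.exp_add]; simp
  rw [e10]
  calc ‖c‖ * (G k ρ * Real.exp (3 * (S * ρ) - 15 * ρ ^ 2) * Real.exp (-(3 * (S * ρ) - 15 * ρ ^ 2)))
      ≤ ‖c‖ * (g * Real.exp (-(3 * (S * ρ) - 15 * ρ ^ 2))) := by
        apply mul_le_mul_of_nonneg_left _ hcpos.le
        exact mul_le_mul_of_nonneg_right hlow (Real.exp_pos _).le
    _ = (‖c‖ * g) * Real.exp (-(3 * (S * ρ) - 15 * ρ ^ 2)) := by ring
    _ ≤ (W * Real.exp (2 * (S * ρ))) * Real.exp (-(3 * (S * ρ) - 15 * ρ ^ 2)) :=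
        mul_le_mul_of_nonneg_right h5 (Real.exp_pos _).le
    _ = _ := by ring

end Helper523.Herm
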