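import Pool.Agent.Helper523.Herm.Cases

set_option autoImplicit false
open Polynomial Filter

namespace Helper523.Herm

/-- a good radius avoiding all roots -/
lemma good_radius (P : ℂ[X]) (hP : P ≠ 0) (N : ℕ) (hN : P.natDegree ≤ N) (w : ℂ) :
    ∃ s : ℝ, 0 < s ∧ s ≤ 1 ∧ ∀ ζ ∈ P.roots, 1 / (2 * ((N:ℝ) + 1)) ≤ |‖ζ - w‖ - s| := by
  by_contra hcon
  push Not at hcon
  have h1 : ∀ i : Fin (N+1), ∃ ζ ∈ P.roots, |‖ζ - w‖ - ((i:ℕ) + 1) / ((N:ℝ) + 1)| < 1 / (2 * ((N:ℝ) + 1)) := by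
    intro i
    apply hcon
    · positivity
    · rw [div_le_one (by positivity)]
      have : (i:ℕ) + 1 ≤ N + 1 := i.2
      exact_mod_cast this
  choose f hf1 hf2 using h1
  have hinj : Function.Injective f := by
    intro i j hij
    have h3 := hf2 i
    have h4 := hf2 j
    rw [hij] at h3
    by_contra hne
    have hne' : (i:ℕ) ≠ (j:ℕ) := fun h => hne (Fin.ext h)
    have h5 : (1:ℝ) ≤ |((i:ℕ):ℝ) - (j:ℕ)| := by
      have : (1:ℤ) ≤ |((i:ℕ):ℤ) - (j:ℕ)| := by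
        apply Int.one_le_abs
        intro h
        apply hne'
        omega
      exact_mod_cast this
    have h6 : |((i:ℕ):ℝ) - (j:ℕ)| / ((N:ℝ)+1) = |(((i:ℕ):ℝ) + 1) / ((N:ℝ) + 1) - (((j:ℕ):ℝ) + 1) / ((N:ℝ) + 1)| := by
      rw [← sub_div, abs_div, abs_of_pos (by positivity : (0:ℝ) < (N:ℝ)+1)]
      congr 2; ring
    have h7 : |(((i:ℕ):ℝ) + 1) / ((N:ℝ) + 1) - (((j:ℕ):ℝ) + 1) / ((N:ℝ) + 1)|
        < 1 / (2 * ((N:ℝ) + 1)) + 1 / (2 * ((N:ℝ) + 1)) := by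
      rw [abs_lt] at h3 h4 ⊢
      constructor <;> linarith [h3.1, h3.2, h4.1, h4.2]
    rw [← h6] at h7
    have h8 : 1 / (2 * ((N:ℝ) + 1)) + 1 / (2 * ((N:ℝ) + 1)) = 1 / ((N:ℝ)+1) := by field_simp; norm_num
    rw [h8, div_lt_div_iff_of_pos_right (by positivity)] at h7
    linarith
  have hcard : N + 1 ≤ P.roots.toFinset.card := by
    have : (Finset.univ : Finset (Fin (N+1))).card ≤ P.roots.toFinset.card := by
      apply Finset.card_le_card_of_injOn f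
      · intro i _
        simpa using hf1 i
      · exact hinj.injOn
    simpa using this
  have h9 := Multiset.toFinset_card_le P.roots
  have h10 := card_roots' P
  omega

lemma prod_lower (s : Multiset ℂ) (z : ℂ) (η : ℝ) (hη : 0 ≤ η) (hs : ∀ ζ ∈ s, η * ‖ζ‖ ≤ ‖z - ζ‖) :
    η ^ (Multiset.card s) * ‖(s.map ((0:ℂ) - ·)).prod‖ ≤ ‖(s.map (z - ·)).prod‖ := by
  induction s using Multiset.induction_on with
  | empty => simp
  | cons a s ih =>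
    have ih' := ih (fun ζ hζ => hs ζ (Multiset.mem_cons_of_mem hζ))
    have ha := hs a (Multiset.mem_cons_self a s)
    simp only [Multiset.map_cons, Multiset.prod_cons, Multiset.card_cons, norm_mul]
    have e : ‖(0:ℂ) - a‖ = ‖a‖ := by simp
    rw [e]
    calc _ = (η * ‖a‖) * (η ^ (Multiset.card s) * ‖(s.map ((0:ℂ) - ·)).prod‖) := by ring
      _ ≤ _ := mul_le_mul ha ih' (by positivity) (norm_nonneg _)

/-- lower bound for a polynomial on a good circle -/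
lemma circle_lower (P : ℂ[X]) (hP : P ≠ 0) (N : ℕ) (hN : P.natDegree ≤ N) (w : ℂ) (ρ : ℝ)
    (hρ : 1 ≤ ρ) (hw : ‖w‖ ≤ ρ - 1) :
    ∃ s : ℝ, 0 < s ∧ s ≤ 1 ∧ ∀ z, ‖z - w‖ = s →
      (1 / (4 * ρ * ((N:ℝ) + 1))) ^ N * ‖P.eval 0‖ ≤ ‖P.eval z‖ := by
  obtain ⟨s, hs0, hs1, hs⟩ := good_radius P hP N hN w
  refine ⟨s, hs0, hs1, ?_⟩
  intro z hz
  set η : ℝ := 1 / (4 * ρ * ((N:ℝ) + 1)) with hη
  have hN0 : (0:ℝ) ≤ N := Nat.cast_nonneg N
  have hηpos : 0 < η := by positivity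
  have hη1 : η ≤ 1 := by
    rw [hη, div_le_one (by positivity)]
    nlinarith
  have hzn : ‖z‖ ≤ ρ := by
    have := norm_sub_norm_le z w
    linarith
  have hfac : ∀ ζ ∈ P.roots, η * ‖ζ‖ ≤ ‖z - ζ‖ := by
    intro ζ hζ
    have h1 := hs ζ hζ
    rcases le_total ‖ζ‖ (2 * ρ) with h | h
    · have h2 : |‖ζ - w‖ - s| ≤ ‖z - ζ‖ := by
        have := abs_norm_sub_norm_le (ζ - w) (z - w)
        rw [hz] at this
        have e : ζ - w - (z - w) = ζ - z := by ring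
        rw [e, norm_sub_rev ζ z] at this
        exact this
      have h3 : η * ‖ζ‖ ≤ 1 / (2 * ((N:ℝ) + 1)) := by
        calc η * ‖ζ‖ ≤ η * (2 * ρ) := mul_le_mul_of_nonneg_left h hηpos.le
          _ = _ := by rw [hη]; field_simp; norm_num
      linarith
    · have h2 := norm_sub_norm_le ζ z
      rw [norm_sub_rev] at h2
      have hη2 : η ≤ 1/2 := by
        rw [hη, div_le_div_iff₀ (by positivity) (by norm_num)]
        nlinarith
      have h3 : η * ‖ζ‖ ≤ 1/2 * ‖ζ‖ := mul_le_mul_of_nonneg_right hη2 (norm_nonneg _)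
      linarith
  have hsp := IsAlgClosed.splits P
  rw [hsp.eval_eq_prod_roots 0, hsp.eval_eq_prod_roots z, norm_mul, norm_mul]
  have h1 := prod_lower P.roots z η hηpos.le hfac
  have hcard : Multiset.card P.roots ≤ N := (card_roots' P).trans hN
  have h2 : η ^ N ≤ η ^ (Multiset.card P.roots) := pow_le_pow_of_le_one hηpos.le hη1 hcard
  calc η ^ N * (‖P.leadingCoeff‖ * ‖(P.roots.map ((0:ℂ) - ·)).prod‖)
      = ‖P.leadingCoeff‖ * (η ^ N * ‖(P.roots.map ((0:ℂ) - ·)).prod‖) := by ring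
    _ ≤ ‖P.leadingCoeff‖ * (η ^ (Multiset.card P.roots) * ‖(P.roots.map ((0:ℂ) - ·)).prod‖) := by
        apply mul_le_mul_of_nonneg_left _ (norm_nonneg _)
        exact mul_le_mul_of_nonneg_right h2 (norm_nonneg _)
    _ ≤ _ := mul_le_mul_of_nonneg_left h1 (norm_nonneg _)

/-- Case B, conditional on smallness of the error -/
lemma caseB (n m : ℕ) (hn : 2 ≤ n) (hnm : n < m) (a b : ℂ) (ρ : ℝ) (hρ : 1 ≤ ρ)
    (w : ℂ) (hw : ‖w‖ ≤ ρ - 1) (hPw : (Fq n (n+1) a 0).eval w = 0)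
    (hsmall : Er ρ m * Real.exp (-(ρ * Real.sqrt (2 * m)) + 15 * ρ ^ 2)
      ≤ 1/4 * (1 / (4 * ρ * (((n+1:ℕ):ℝ) + 1))) ^ (n+1)) :
    ∃ z : ℂ, ‖z‖ ≤ 16 * ρ ∧ (Fq n m a b).eval z = 0 := by
  by_contra hcon
  push Not at hcon
  have hz : ∀ ζ, (Fq n m a b).eval ζ = 0 → 16 * ρ ≤ ‖ζ‖ := by
    intro ζ h
    by_contra hlt
    push Not at hlt
    exact hcon ζ hlt.le h
  obtain ⟨-, h2⟩ := key n m hn hnm a b ρ hρ hz
  set F := Fq n m a b with hF
  set P := Fq n (n+1) a 0 with hPdef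
  have hFP : ∀ z, F.eval z = P.eval z + b * (He m).eval z := by
    intro z; rw [hF, hPdef, eval_Fq, eval_Fq]; ring
  set Fz := ‖F.eval 0‖ with hFz
  have hFpos : 0 < Fz := norm_pos_iff.mpr (hcon 0 (by simp; linarith))
  set η : ℝ := (1 / (4 * ρ * (((n+1:ℕ):ℝ) + 1))) ^ (n+1) with hη
  have hηpos : 0 < η := by positivity
  have hη1 : η ≤ 1 := by
    rw [hη]; apply pow_le_one₀ (by positivity)
    rw [div_le_one (by positivity)]
    have : (0:ℝ) ≤ ((n+1:ℕ):ℝ) := Nat.cast_nonneg _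
    nlinarith
  have hb : ‖b‖ * G m ρ ≤ 1/4 * η * Fz := by
    refine h2.trans ?_
    calc _ = (Er ρ m * Real.exp (-(ρ * Real.sqrt (2 * m)) + 15 * ρ ^ 2)) * Fz := by ring
      _ ≤ _ := mul_le_mul_of_nonneg_right hsmall hFpos.le
  have hbz : ∀ z, ‖z‖ ≤ ρ → ‖b * (He m).eval z‖ ≤ 1/4 * η * Fz := by
    intro z hzr
    rw [norm_mul]
    exact (mul_le_mul_of_nonneg_left (norm_He_le' m z ρ hzr) (norm_nonneg _)).trans hb
  have hP0 : 3/4 * Fz ≤ ‖P.eval 0‖ := by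
    have h3 : Fz ≤ ‖P.eval 0‖ + ‖b * (He m).eval 0‖ := by
      rw [hFz, hFP]; exact norm_add_le _ _
    have h4 := hbz 0 (by simp; linarith)
    have h5 : 1/4 * η * Fz ≤ 1/4 * Fz := by
      apply mul_le_mul_of_nonneg_right _ hFpos.le; linarith
    linarith
  have hPne : P ≠ 0 := by
    intro h
    rw [h, eval_zero, norm_zero] at hP0
    linarith
  have hdeg : P.natDegree ≤ n + 1 := natDegree_Fq n (n+1) (by omega) (by omega) a 0
  obtain ⟨s, hs0, hs1, hs⟩ := circle_lower P hPne (n+1) hdeg w ρ hρ hw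
  have hmin := min_principle F w s (3/4 * η * Fz - 1/4 * η * Fz) hs0 (by
    intro z hz1
    apply hcon
    have := norm_sub_norm_le z w
    linarith) (by
    intro z hz1
    have hzr : ‖z‖ ≤ ρ := by
      have := norm_sub_norm_le z w
      linarith
    have h3 := hs z hz1
    rw [← hη] at h3
    have h4 := hbz z hzr
    have h5 : ‖P.eval z‖ ≤ ‖F.eval z‖ + ‖b * (He m).eval z‖ := by
      have := norm_sub_le (F.eval z) (b * (He m).eval z)
      rw [hFP z] at this ⊢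
      simpa using this
    have h6 : 3/4 * η * Fz ≤ η * ‖P.eval 0‖ := by
      calc 3/4 * η * Fz = η * (3/4 * Fz) := by ring
        _ ≤ _ := mul_le_mul_of_nonneg_left hP0 hηpos.le
    linarith)
  rw [hFP w, hPw, zero_add] at hmin
  have h7 := hbz w (by linarith)
  have h8 : 0 < η * Fz := by positivity
  linarith

/-- asymptotics: `x^a e^{-x} → 0` type statement for case A -/
lemma exists_N₀ : ∃ N : ℕ, ∀ n m : ℕ, N ≤ n → m ≤ n ^ 8 →
    Er 1 m * Real.exp (-(1 * Real.sqrt (2 * n)) + 15 * 1 ^ 2) ≤ 1/16 := by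
  have h1 : Tendsto (fun x : ℝ => x ^ 96 * Real.exp (-x)) atTop (nhds 0) :=
    Real.tendsto_pow_mul_exp_neg_atTop_nhds_zero 96
  have h2 : Tendsto (fun n : ℕ => Real.sqrt (2 * n)) atTop atTop := by
    apply Real.tendsto_sqrt_atTop.comp
    exact (tendsto_natCast_atTop_atTop).const_mul_atTop (by norm_num)
  have h3 := (h1.comp h2).const_mul (12 ^ 3 * 3 * Real.exp 15)
  rw [mul_zero] at h3
  have h4 := (h3.eventually (gt_mem_nhds (by norm_num : (0:ℝ) < 1/16))).and (eventually_ge_atTop 1)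
  obtain ⟨N, hN⟩ := eventually_atTop.mp h4
  refine ⟨N, ?_⟩
  intro n m hn hm
  obtain ⟨h5, h6⟩ := hN n hn
  simp only [Function.comp] at h5
  have hm' : (m:ℝ) ≤ (n:ℝ) ^ 8 := by exact_mod_cast hm
  have hn1 : (1:ℝ) ≤ n := by exact_mod_cast h6
  have hsq : Real.sqrt (2 * n) ^ 96 = (2 * (n:ℝ)) ^ 48 := by
    have : Real.sqrt (2 * n) ^ 96 = (Real.sqrt (2 * n) ^ 2) ^ 48 := by ring
    rw [this, Real.sq_sqrt (by positivity)]
  rw [hsq] at h5
  have hEr : Er 1 m ≤ 12 ^ 3 * 3 * (2 * (n:ℝ)) ^ 48 := by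
    unfold Er
    have e1 : ((8 * (1:ℝ) + 4) * (m:ℝ)^2) ^ 3 * 3 = 12 ^ 3 * 3 * (m:ℝ) ^ 6 := by ring
    rw [e1]
    apply mul_le_mul_of_nonneg_left _ (by norm_num)
    calc (m:ℝ) ^ 6 ≤ ((n:ℝ) ^ 8) ^ 6 := pow_le_pow_left₀ (by positivity) hm' 6
      _ = (n:ℝ) ^ 48 := by ring
      _ ≤ (2 * (n:ℝ)) ^ 48 := pow_le_pow_left₀ (by positivity) (by linarith) 48
  have e2 : Real.exp (-(1 * Real.sqrt (2 * n)) + 15 * 1 ^ 2)
      = Real.exp 15 * Real.exp (-Real.sqrt (2 * n)) := by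
    rw [← Real.exp_add]; congr 1; ring
  rw [e2]
  calc Er 1 m * (Real.exp 15 * Real.exp (-Real.sqrt (2 * n)))
      ≤ (12 ^ 3 * 3 * (2 * (n:ℝ)) ^ 48) * (Real.exp 15 * Real.exp (-Real.sqrt (2 * n))) :=
        mul_le_mul_of_nonneg_right hEr (by positivity)
    _ = 12 ^ 3 * 3 * Real.exp 15 * ((2 * (n:ℝ)) ^ 48 * Real.exp (-Real.sqrt (2 * n))) := by ring
    _ ≤ 1/16 := h5.le

/-- all pairs with `m ≤ n⁸` -/
lemma theoremA : ∃ R : ℝ, 0 ≤ R ∧ ∀ n m : ℕ, 2 ≤ n → n < m → m ≤ n ^ 8 → ∀ a b : ℂ,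
    ∃ z : ℂ, ‖z‖ ≤ R ∧ (Fq n m a b).eval z = 0 := by
  obtain ⟨N, hN⟩ := exists_N₀
  refine ⟨16 + (2 + 40 * ((N ^ 8 : ℕ) : ℝ)), by positivity, ?_⟩
  intro n m hn hnm hm a b
  rcases le_total N n with h | h
  · obtain ⟨z, hz1, hz2⟩ := caseA n m hn hnm a b (hN n m h hm)
    refine ⟨z, hz1.trans ?_, hz2⟩
    have : (0:ℝ) ≤ ((N ^ 8 : ℕ) : ℝ) := Nat.cast_nonneg _
    linarith
  · have hmM : m ≤ N ^ 8 := hm.trans (Nat.pow_le_pow_left h 8)
    obtain ⟨z, hz1, hz2⟩ := caseC (N ^ 8) n m hn hnm hmM a b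
    exact ⟨z, hz1.trans (by linarith), hz2⟩

/-- asymptotics for case B -/
lemma exists_M₁ (ρ : ℝ) (hρ : 1 ≤ ρ) : ∃ M : ℕ, ∀ n m : ℕ, 2 ≤ n → M ≤ m → n ^ 8 < m →
    Er ρ m * Real.exp (-(ρ * Real.sqrt (2 * m)) + 15 * ρ ^ 2)
      ≤ 1/4 * (1 / (4 * ρ * (((n+1:ℕ):ℝ) + 1))) ^ (n+1) := by
  have h1 : Tendsto (fun x : ℝ => x ^ 12 * Real.exp (-x)) atTop (nhds 0) :=
    Real.tendsto_pow_mul_exp_neg_atTop_nhds_zero 12
  have h2 : Tendsto (fun m : ℕ => 1/8 * Real.sqrt m) atTop atTop := by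
    apply Tendsto.const_mul_atTop (by norm_num)
    exact Real.tendsto_sqrt_atTop.comp tendsto_natCast_atTop_atTop
  have h3 := (h1.comp h2).const_mul (4 * (8 * ρ + 4) ^ 3 * 3 * 8 ^ 12 * Real.exp (15 * ρ ^ 2))
  rw [mul_zero] at h3
  have h4 := (h3.eventually (gt_mem_nhds (by norm_num : (0:ℝ) < 1))).and
    (h2.eventually (eventually_ge_atTop (32 ^ 2)))
  obtain ⟨M, hM⟩ := eventually_atTop.mp h4
  refine ⟨M, ?_⟩
  intro n m hn hm hnm
  obtain ⟨h5, h6⟩ := hM m hm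
  simp only [Function.comp] at h5
  set T : ℝ := Real.sqrt m with hT
  have hT0 : 0 ≤ T := Real.sqrt_nonneg _
  have hTsq : T ^ 2 = m := Real.sq_sqrt (Nat.cast_nonneg m)
  set y : ℝ := Real.sqrt T with hy
  have hy0 : 0 ≤ y := Real.sqrt_nonneg _
  have hysq : y ^ 2 = T := Real.sq_sqrt hT0
  have hn' : (2:ℝ) ≤ n := by exact_mod_cast hn
  -- n^2 ≤ y
  have hny : (n:ℝ) ^ 2 ≤ y := by
    have h7 : ((n:ℝ) ^ 2) ^ 4 ≤ y ^ 4 := by
      have e1 : y ^ 4 = m := by rw [← hTsq, ← hysq]; ring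
      have e2 : ((n:ℝ) ^ 2) ^ 4 = (n:ℝ) ^ 8 := by ring
      rw [e1, e2]
      exact_mod_cast hnm.le
    exact le_of_pow_le_pow_left₀ (by norm_num) hy0 h7
  -- lower bound for η
  have hη : Real.exp (-(16 * ρ * y)) ≤ (1 / (4 * ρ * (((n+1:ℕ):ℝ) + 1))) ^ (n+1) := by
    have hb : (4 * ρ * (((n+1:ℕ):ℝ) + 1)) ≤ Real.exp (4 * ρ * (((n+1:ℕ):ℝ) + 1)) := by
      have := Real.add_one_le_exp (4 * ρ * (((n+1:ℕ):ℝ) + 1)); linarith
    have hbpos : 0 < 4 * ρ * (((n+1:ℕ):ℝ) + 1) := by positivity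
    have h8 : (4 * ρ * (((n+1:ℕ):ℝ) + 1)) ^ (n+1) ≤ Real.exp (16 * ρ * y) := by
      calc (4 * ρ * (((n+1:ℕ):ℝ) + 1)) ^ (n+1) ≤ (Real.exp (4 * ρ * (((n+1:ℕ):ℝ) + 1))) ^ (n+1) :=
            pow_le_pow_left₀ hbpos.le hb _
        _ = Real.exp (((n+1:ℕ):ℝ) * (4 * ρ * (((n+1:ℕ):ℝ) + 1))) := by rw [← Real.exp_nat_mul]
        _ ≤ Real.exp (16 * ρ * y) := by
          apply Real.exp_le_exp.mpr
          push_cast
          have h9 : ((n:ℝ) + 1) * ((n:ℝ) + 1 + 1) ≤ 4 * (n:ℝ)^2 := by nlinarith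
          have h10 : ((n:ℝ) + 1) * ((n:ℝ) + 1 + 1) ≤ 4 * y := by linarith
          calc ((n:ℝ) + 1) * (4 * ρ * ((n:ℝ) + 1 + 1)) = (4 * ρ) * (((n:ℝ) + 1) * ((n:ℝ) + 1 + 1)) := by ring
            _ ≤ (4 * ρ) * (4 * y) := mul_le_mul_of_nonneg_left h10 (by positivity)
            _ = _ := by ring
    rw [one_div, inv_pow, Real.exp_neg]
    exact inv_anti₀ (by positivity) h8
  have hmain : Er ρ m * Real.exp (-(ρ * Real.sqrt (2 * m)) + 15 * ρ ^ 2) ≤ 1/4 * Real.exp (-(16 * ρ * y)) := by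
    have hs2 : Real.sqrt (2 * m) ≥ 5/4 * T := by
      have : 5/4 * T ≤ Real.sqrt (2 * m) := by
        apply Real.le_sqrt_of_sq_le
        rw [mul_pow, hTsq]
        have : (0:ℝ) ≤ m := Nat.cast_nonneg m
        nlinarith
      exact this
    have hT8 : 8 * 32 ^ 2 ≤ T := by linarith
    have hy32 : 32 ≤ y := by
      rw [hy]; apply Real.le_sqrt_of_sq_le; linarith
    have hyT : 16 * y ≤ 1/2 * T := by
      rw [← hysq]; nlinarith
    have hexp : -(ρ * Real.sqrt (2 * m)) + 15 * ρ ^ 2 ≤ -(16 * ρ * y) + (15 * ρ ^ 2 - 1/8 * T) := by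
      have h11 : ρ * Real.sqrt (2 * m) ≥ ρ * (5/4 * T) := mul_le_mul_of_nonneg_left hs2 (by linarith)
      have h12 : 16 * ρ * y ≤ ρ * (1/2 * T) := by
        calc 16 * ρ * y = ρ * (16 * y) := by ring
          _ ≤ _ := mul_le_mul_of_nonneg_left hyT (by linarith)
      have h13 : T ≤ ρ * T := by nlinarith
      nlinarith
    have h14 : Er ρ m = (8 * ρ + 4) ^ 3 * 3 * T ^ 12 := by
      unfold Er
      rw [← hTsq]; ring
    rw [h14]
    calc (8 * ρ + 4) ^ 3 * 3 * T ^ 12 * Real.exp (-(ρ * Real.sqrt (2 * m)) + 15 * ρ ^ 2)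
        ≤ (8 * ρ + 4) ^ 3 * 3 * T ^ 12 * Real.exp (-(16 * ρ * y) + (15 * ρ ^ 2 - 1/8 * T)) := by
          apply mul_le_mul_of_nonneg_left (Real.exp_le_exp.mpr hexp) (by positivity)
      _ = 1/4 * Real.exp (-(16 * ρ * y)) * (4 * (8 * ρ + 4) ^ 3 * 3 * 8 ^ 12 * Real.exp (15 * ρ ^ 2)
            * ((1/8 * T) ^ 12 * Real.exp (-(1/8 * T)))) := by
          have e1 : Real.exp (-(16 * ρ * y) + (15 * ρ ^ 2 - 1/8 * T))
            = Real.exp (-(16 * ρ * y)) * (Real.exp (15 * ρ ^ 2) * Real.exp (-(1/8 * T))) := by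
            rw [← Real.exp_add, ← Real.exp_add, sub_eq_add_neg]
          rw [e1]; ring
      _ ≤ 1/4 * Real.exp (-(16 * ρ * y)) * 1 := by
          apply mul_le_mul_of_nonneg_left h5.le (by positivity)
      _ = _ := by ring
  exact hmain.trans (mul_le_mul_of_nonneg_left hη (by norm_num))

/-- the disc version of the quadrinomial theorem -/
theorem disc_version : ∃ R : ℝ, ∀ n m : ℕ, 2 ≤ n → n < m → ∀ a b : ℂ,
    ∃ z : ℂ, ‖z‖ ≤ R ∧ (Fq n m a b).eval z = 0 := by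
  obtain ⟨R₁, hR₁, hA⟩ := theoremA
  set ρ : ℝ := R₁ + 1 with hρ
  have hρ1 : 1 ≤ ρ := by linarith
  obtain ⟨M, hM⟩ := exists_M₁ ρ hρ1
  refine ⟨R₁ + 16 * ρ + (2 + 40 * (M:ℝ)), ?_⟩
  intro n m hn hnm a b
  have hM0 : (0:ℝ) ≤ M := Nat.cast_nonneg M
  rcases le_or_gt m (n ^ 8) with h | h
  · obtain ⟨z, h1, h2⟩ := hA n m hn hnm h a b
    exact ⟨z, h1.trans (by linarith), h2⟩
  · rcases le_total M m with h' | h'
    · obtain ⟨w, hw1, hw2⟩ := hA n (n+1) hn (by omega) (by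
        have : n + 1 ≤ n ^ 2 := by nlinarith
        exact this.trans (Nat.pow_le_pow_right (by omega) (by norm_num))) a 0
      obtain ⟨z, h1, h2⟩ := caseB n m hn hnm a b ρ hρ1 w (by linarith) hw2 (hM n m hn h' h)
      exact ⟨z, h1.trans (by linarith), h2⟩
    · obtain ⟨z, h1, h2⟩ := caseC M n m hn hnm h' a b
      exact ⟨z, h1.trans (by linarith), h2⟩

end Helper523.Herm
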