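import Pool.Agent.Helper523.Herm.Growth

set_option autoImplicit false
open Polynomial

namespace Helper523.Herm

/-- `G n y = |H_n (i y)|` for `y ≥ 0` -/
noncomputable def G : ℕ → ℝ → ℝ
  | 0, _ => 1
  | 1, y => 2 * y
  | (n+2), y => 2 * y * G (n+1) y + 2 * ((n:ℝ)+1) * G n y

lemma G_zero (y : ℝ) : G 0 y = 1 := by rw [G]
lemma G_one (y : ℝ) : G 1 y = 2 * y := by rw [G]
lemma G_rec (n : ℕ) (y : ℝ) : G (n+2) y = 2 * y * G (n+1) y + 2 * ((n:ℝ)+1) * G n y := by rw [G]

lemma G_nonneg (n : ℕ) (y : ℝ) (hy : 0 ≤ y) : 0 ≤ G n y := by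
  induction n using Nat.twoStepInduction with
  | zero => rw [G_zero]; norm_num
  | one => rw [G_one]; linarith
  | more n ih1 ih2 => rw [G_rec]; positivity

lemma G_pos (n : ℕ) (y : ℝ) (hy : 0 < y) : 0 < G n y := by
  induction n using Nat.twoStepInduction with
  | zero => rw [G_zero]; norm_num
  | one => rw [G_one]; linarith
  | more n ih1 ih2 => rw [G_rec]; positivity

lemma G_mono (n : ℕ) (x y : ℝ) (hx : 0 ≤ x) (hxy : x ≤ y) : G n x ≤ G n y := by
  induction n using Nat.twoStepInduction with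
  | zero => rw [G_zero, G_zero]
  | one => rw [G_one, G_one]; linarith
  | more n ih1 ih2 =>
    rw [G_rec, G_rec]
    have h1 : 2 * x * G (n+1) x ≤ 2 * y * G (n+1) y :=
      mul_le_mul (by linarith) ih2 (G_nonneg _ _ hx) (by linarith)
    have h2 : 2 * ((n:ℝ)+1) * G n x ≤ 2 * ((n:ℝ)+1) * G n y :=
      mul_le_mul_of_nonneg_left ih1 (by positivity)
    linarith

lemma norm_He_le (n : ℕ) (z : ℂ) : ‖(He n).eval z‖ ≤ G n ‖z‖ := by
  induction n using Nat.twoStepInduction with
  | zero => rw [He_zero, G_zero]; simp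
  | one => rw [He_one, G_one]; simp
  | more n ih1 ih2 =>
    rw [He_rec, G_rec]
    simp only [eval_sub, eval_mul, eval_C, eval_X]
    refine (norm_sub_le _ _).trans ?_
    have e1 : ‖(2:ℂ) * z * (He (n+1)).eval z‖ = 2 * ‖z‖ * ‖(He (n+1)).eval z‖ := by simp
    have e2 : ‖2 * ((n:ℂ)+1) * (He n).eval z‖ = 2 * ((n:ℝ)+1) * ‖(He n).eval z‖ := by
      rw [norm_mul, norm_mul]
      have : ((n:ℂ)+1) = ((n+1:ℕ):ℂ) := by push_cast; ring
      rw [this, Complex.norm_natCast]; simp
    rw [e1, e2]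
    exact add_le_add (mul_le_mul_of_nonneg_left ih2 (by positivity))
      (mul_le_mul_of_nonneg_left ih1 (by positivity))

lemma norm_He_le' (n : ℕ) (z : ℂ) (ρ : ℝ) (h : ‖z‖ ≤ ρ) : ‖(He n).eval z‖ ≤ G n ρ :=
  (norm_He_le n z).trans (G_mono n _ _ (norm_nonneg _) h)

lemma He_I (n : ℕ) (y : ℝ) : (He n).eval (Complex.I * y) = Complex.I ^ n * (G n y : ℂ) := by
  induction n using Nat.twoStepInduction with
  | zero => rw [He_zero, G_zero]; simp
  | one => rw [He_one, G_one]; simp; ring
  | more n ih1 ih2 =>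
    rw [He_rec, G_rec]
    simp only [eval_sub, eval_mul, eval_C, eval_X, ih1, ih2]
    push_cast
    have h1 : Complex.I ^ (n+2) = - Complex.I ^ n := by rw [pow_add, Complex.I_sq]; ring
    have h2 : Complex.I * Complex.I ^ (n+1) = - Complex.I ^ n := by
      rw [← pow_succ', show n+1+1 = n+2 from rfl, h1]
    rw [h1]
    linear_combination (2 * (y:ℂ) * (G (n+1) y : ℂ)) * h2

lemma norm_He_I (n : ℕ) (y : ℝ) (hy : 0 ≤ y) : ‖(He n).eval (Complex.I * y)‖ = G n y := by
  rw [He_I, norm_mul, norm_pow, Complex.norm_I, one_pow, one_mul, Complex.norm_real,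
    Real.norm_of_nonneg (G_nonneg n y hy)]

lemma hasDerivAt_G (n : ℕ) (y : ℝ) :
    HasDerivAt (G (n+1)) (2 * ((n:ℝ)+1) * G n y) y := by
  induction n using Nat.twoStepInduction with
  | zero =>
    have : G 1 = fun y => 2 * y := by funext y; exact G_one y
    rw [show (0+1) = 1 from rfl, this, G_zero]
    simpa using (hasDerivAt_id y).const_mul (2:ℝ)
  | one =>
    have : G (1+1) = fun y => 2 * y * (2 * y) + 2 := by
      funext y; rw [show (1+1) = 0+2 from rfl, G_rec, G_zero, G_one]; norm_num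
    rw [this, G_one]
    have h := (((hasDerivAt_id' y).const_mul (2:ℝ)).fun_mul ((hasDerivAt_id' y).const_mul (2:ℝ))).add_const 2
    refine h.congr_deriv ?_
    push_cast; ring
  | more n ih1 ih2 =>
    have hfun : G (n+2+1) = fun y => 2 * y * G (n+1+1) y + 2 * ((n:ℝ)+1+1) * G (n+1) y := by
      funext y
      have := G_rec (n+1) y
      push_cast at this
      exact this
    rw [hfun]
    have h1 := (((hasDerivAt_id' y).const_mul (2:ℝ)).fun_mul ih2).fun_add (ih1.const_mul (2 * ((n:ℝ)+1+1)))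
    refine h1.congr_deriv ?_
    have h2 := G_rec n y
    push_cast
    rw [show n+1+1 = n+2 from rfl, h2]
    ring

/-- two-sided ratio bounds for `y ≥ 1` -/
lemma ratio_bounds (n : ℕ) (y : ℝ) (hy : 1 ≤ y) :
    Real.sqrt (2 * ((n:ℝ)+1)) * G n y ≤ G (n+1) y ∧
    G (n+1) y ≤ (Real.sqrt (2 * ((n:ℝ)+1)) + 2 * y) * G n y := by
  induction n with
  | zero =>
    rw [G_zero, show (0+1) = 1 from rfl, G_one]
    have h1 : Real.sqrt (2 * (((0:ℕ):ℝ)+1)) ≤ 2 := by
      rw [Real.sqrt_le_left (by norm_num)]; norm_num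
    have h2 := Real.sqrt_nonneg (2 * (((0:ℕ):ℝ)+1))
    constructor <;> nlinarith
  | succ n ih =>
    obtain ⟨h1, h2⟩ := ih
    have hG0 := G_pos n y (by linarith)
    have hG1 := G_pos (n+1) y (by linarith)
    rw [G_rec n]
    push_cast
    set S := Real.sqrt (2 * ((n:ℝ)+1)) with hS
    set T := Real.sqrt (2 * ((n:ℝ)+1+1)) with hT
    have hn : (0:ℝ) ≤ n := Nat.cast_nonneg n
    have hSsq : S ^ 2 = 2 * ((n:ℝ)+1) := Real.sq_sqrt (by positivity)
    have hTsq : T ^ 2 = 2 * ((n:ℝ)+1+1) := Real.sq_sqrt (by positivity)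
    have hS1 : 1 ≤ S := by
      rw [hS]; apply Real.le_sqrt_of_sq_le; nlinarith
    have hT1 : 1 ≤ T := by
      rw [hT]; apply Real.le_sqrt_of_sq_le; nlinarith
    have hST : S ≤ T := by rw [hS, hT]; apply Real.sqrt_le_sqrt; linarith
    constructor
    · -- T * G(n+1) ≤ 2y G(n+1) + S² G n
      -- G(n+1) ≤ (S+2y) G n
      rw [← hSsq]
      -- suffices (T - 2y) (S+2y) ≤ S²
      have hTS : T - S ≤ 1 / S := by
        rw [le_div_iff₀ (by linarith)]
        nlinarith
      have key : (T - 2 * y) * (S + 2 * y) ≤ S ^ 2 := by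
        have hx : (T - S) * (T + S) = 2 := by nlinarith
        -- (T-2y)(S+2y) = TS + 2yT - 2yS - 4y² 
        have e : S ^ 2 - (T - 2 * y) * (S + 2 * y) = 4 * y^2 - (T - S) * (S + 2 * y) := by ring
        have h3 : (T - S) * S ≤ 1 := by
          have := mul_le_mul_of_nonneg_right hTS (by linarith : 0 ≤ S)
          rwa [one_div, inv_mul_cancel₀ (by linarith)] at this
        have h4 : (T - S) ≤ 1 := by
          have : 1 / S ≤ 1 := by rw [div_le_one (by linarith)]; exact hS1
          linarith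
        have h5 : (T - S) * (2 * y) ≤ 2 * y := by nlinarith
        nlinarith
      by_cases hc : T - 2 * y ≤ 0
      · nlinarith [mul_nonneg (sq_nonneg S) hG0.le]
      · push Not at hc
        have h6 : (T - 2 * y) * G (n+1) y ≤ (T - 2 * y) * ((S + 2 * y) * G n y) :=
          mul_le_mul_of_nonneg_left h2 hc.le
        have h7 : (T - 2 * y) * ((S + 2 * y) * G n y) ≤ S ^ 2 * G n y := by
          rw [← mul_assoc]
          exact mul_le_mul_of_nonneg_right key hG0.le
        linarith
    · rw [← hSsq]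
      have h3 : S ^ 2 * G n y ≤ S * G (n+1) y := by
        have := mul_le_mul_of_nonneg_left h1 (by linarith : 0 ≤ S)
        calc S ^ 2 * G n y = S * (S * G n y) := by ring
          _ ≤ _ := this
      have h4 : S * G (n+1) y ≤ T * G (n+1) y := mul_le_mul_of_nonneg_right hST hG1.le
      linarith

lemma deriv_bounds (n : ℕ) (y : ℝ) (hy : 1 ≤ y) :
    2 * ((n:ℝ)+1) * G n y ≤ Real.sqrt (2 * ((n:ℝ)+1)) * G (n+1) y ∧
    (Real.sqrt (2 * ((n:ℝ)+1)) - 2 * y) * G (n+1) y ≤ 2 * ((n:ℝ)+1) * G n y := by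
  obtain ⟨h1, h2⟩ := ratio_bounds n y hy
  have hG0 := G_pos n y (by linarith)
  have hG1 := G_pos (n+1) y (by linarith)
  set S := Real.sqrt (2 * ((n:ℝ)+1)) with hS
  have hn : (0:ℝ) ≤ n := Nat.cast_nonneg n
  have hSsq : S ^ 2 = 2 * ((n:ℝ)+1) := Real.sq_sqrt (by positivity)
  have hS0 : 0 ≤ S := Real.sqrt_nonneg _
  rw [← hSsq]
  constructor
  · have := mul_le_mul_of_nonneg_left h1 hS0
    calc S ^ 2 * G n y = S * (S * G n y) := by ring
      _ ≤ _ := this
  · by_cases hc : S - 2 * y ≤ 0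
    · have : (S - 2 * y) * G (n+1) y ≤ 0 := mul_nonpos_of_nonpos_of_nonneg hc hG1.le
      have : 0 ≤ S ^ 2 * G n y := by positivity
      linarith
    · push Not at hc
      have h6 := mul_le_mul_of_nonneg_left h2 hc.le
      have h7 : (S - 2 * y) * ((S + 2 * y) * G n y) ≤ S ^ 2 * G n y := by
        have : (S - 2 * y) * (S + 2 * y) ≤ S ^ 2 := by nlinarith
        rw [← mul_assoc]
        exact mul_le_mul_of_nonneg_right this hG0.le
      linarith

/-- `G n y e^{-√(2n) y}` is decreasing on `[1,∞)` -/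
lemma G_upper (n : ℕ) (x y : ℝ) (hx : 1 ≤ x) (hxy : x ≤ y) :
    G n y ≤ Real.exp (Real.sqrt (2 * n) * (y - x)) * G n x := by
  match n with
  | 0 => simp [G_zero]
  | (n+1) =>
    push_cast
    set S := Real.sqrt (2 * ((n:ℝ)+1)) with hS
    have hder : ∀ t, HasDerivAt (fun t => G (n+1) t * Real.exp (-(S * t)))
        (2 * ((n:ℝ)+1) * G n t * Real.exp (-(S * t)) + G (n+1) t * (Real.exp (-(S * t)) * (-S))) t := by
      intro t
      have h1 : HasDerivAt (fun t => -(S * t)) (-S) t := by
        simpa using ((hasDerivAt_id t).const_mul S).fun_neg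
      exact (hasDerivAt_G n t).mul h1.exp
    have hanti : AntitoneOn (fun t => G (n+1) t * Real.exp (-(S * t))) (Set.Ici 1) := by
      apply antitoneOn_of_deriv_nonpos (convex_Ici 1)
      · exact fun t _ => (hder t).continuousAt.continuousWithinAt
      · exact fun t _ => (hder t).differentiableAt.differentiableWithinAt
      · intro t ht
        rw [interior_Ici] at ht
        rw [(hder t).deriv]
        have h1 := (deriv_bounds n t ht.le).1
        have h2 := Real.exp_pos (-(S * t))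
        have h3 := mul_le_mul_of_nonneg_right h1 h2.le
        rw [← hS] at h3
        linarith
    have h := hanti (Set.mem_Ici.mpr hx) (Set.mem_Ici.mpr (hx.trans hxy)) hxy
    simp only at h
    have e : Real.exp (S * (y - x)) = Real.exp (-(S * x)) * Real.exp (S * y) := by
      rw [← Real.exp_add]; congr 1; ring
    rw [e]
    have h2 := mul_le_mul_of_nonneg_right h (Real.exp_pos (S * y)).le
    have e2 : G (n+1) y * Real.exp (-(S * y)) * Real.exp (S * y) = G (n+1) y := by
      rw [mul_assoc, ← Real.exp_add]; simp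
    rw [e2] at h2
    linarith

/-- `G n y e^{-√(2n) y + y²}` is increasing on `[1,∞)` -/
lemma G_lower (n : ℕ) (x y : ℝ) (hx : 1 ≤ x) (hxy : x ≤ y) :
    G n x * Real.exp (Real.sqrt (2 * n) * (y - x) - (y ^ 2 - x ^ 2)) ≤ G n y := by
  match n with
  | 0 =>
    simp only [G_zero, one_mul, Nat.cast_zero, mul_zero, Real.sqrt_zero, zero_mul, zero_sub]
    rw [Real.exp_le_one_iff]; nlinarith
  | (n+1) =>
    push_cast
    set S := Real.sqrt (2 * ((n:ℝ)+1)) with hS
    have hder : ∀ t, HasDerivAt (fun t => G (n+1) t * Real.exp (-(S * t) + t ^ 2))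
        (2 * ((n:ℝ)+1) * G n t * Real.exp (-(S * t) + t ^ 2)
          + G (n+1) t * (Real.exp (-(S * t) + t ^ 2) * (-S + 2 * t))) t := by
      intro t
      have h1 : HasDerivAt (fun t => -(S * t)) (-S) t := by
        simpa using ((hasDerivAt_id t).const_mul S).fun_neg
      have h2 : HasDerivAt (fun t : ℝ => t ^ 2) (2 * t) t := by
        simpa using hasDerivAt_pow 2 t
      exact (hasDerivAt_G n t).mul (h1.add h2).exp
    have hmono : MonotoneOn (fun t => G (n+1) t * Real.exp (-(S * t) + t ^ 2)) (Set.Ici 1) := by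
      apply monotoneOn_of_deriv_nonneg (convex_Ici 1)
      · exact fun t _ => (hder t).continuousAt.continuousWithinAt
      · exact fun t _ => (hder t).differentiableAt.differentiableWithinAt
      · intro t ht
        rw [interior_Ici] at ht
        rw [(hder t).deriv]
        have h1 := (deriv_bounds n t ht.le).2
        have h2 := Real.exp_pos (-(S * t) + t ^ 2)
        have h3 := mul_le_mul_of_nonneg_right h1 h2.le
        rw [← hS] at h3
        nlinarith
    have h := hmono (Set.mem_Ici.mpr hx) (Set.mem_Ici.mpr (hx.trans hxy)) hxy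
    simp only at h
    have e : Real.exp (S * (y - x) - (y ^ 2 - x ^ 2))
        = Real.exp (-(S * x) + x ^ 2) * Real.exp (S * y - y ^ 2) := by
      rw [← Real.exp_add]; congr 1; ring
    rw [e]
    have h2 := mul_le_mul_of_nonneg_right h (Real.exp_pos (S * y - y ^ 2)).le
    have e2 : G (n+1) y * Real.exp (-(S * y) + y ^ 2) * Real.exp (S * y - y ^ 2) = G (n+1) y := by
      rw [mul_assoc, ← Real.exp_add]; simp
    rw [e2] at h2
    linarith

end Helper523.Herm
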