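import Pool.Agent.Helper523.Herm.Basic

set_option autoImplicit false
open Polynomial

namespace Helper523.Herm

lemma multiset_prod_le (s : Multiset ℂ) (z w : ℂ) (d : ℝ) (hd : 0 < d)
    (hs : ∀ ζ ∈ s, d ≤ ‖z - ζ‖) :
    ‖(s.map (w - ·)).prod‖ ≤ (1 + ‖w - z‖ / d) ^ (Multiset.card s) * ‖(s.map (z - ·)).prod‖ := by
  induction s using Multiset.induction_on with
  | empty => simp
  | cons a s ih =>
    have ih' := ih (fun ζ hζ => hs ζ (Multiset.mem_cons_of_mem hζ))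
    have ha := hs a (Multiset.mem_cons_self a s)
    simp only [Multiset.map_cons, Multiset.prod_cons, Multiset.card_cons, norm_mul]
    have h1 : ‖w - a‖ ≤ (1 + ‖w - z‖ / d) * ‖z - a‖ := by
      have h2 : ‖w - a‖ ≤ ‖w - z‖ + ‖z - a‖ := by
        have := norm_add_le (w - z) (z - a); simpa using this
      have h3 : ‖w - z‖ ≤ ‖w - z‖ / d * ‖z - a‖ := by
        rw [div_mul_eq_mul_div, le_div_iff₀ hd]
        exact mul_le_mul_of_nonneg_left ha (norm_nonneg _)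
      linarith
    calc ‖w - a‖ * ‖(s.map (w - ·)).prod‖
        ≤ ((1 + ‖w - z‖ / d) * ‖z - a‖) * ((1 + ‖w - z‖ / d) ^ (Multiset.card s) * ‖(s.map (z - ·)).prod‖) := by
          apply mul_le_mul h1 ih' (norm_nonneg _) (by positivity)
      _ = _ := by ring

/-- growth of a polynomial that is zero-free in a disc -/
lemma growth (F : ℂ[X]) (m : ℕ) (hF : F.natDegree ≤ m) (z w : ℂ) (d : ℝ) (hd : 0 < d)
    (hz : ∀ ζ, F.eval ζ = 0 → d ≤ ‖z - ζ‖) :
    ‖F.eval w‖ ≤ (1 + ‖w - z‖ / d) ^ m * ‖F.eval z‖ := by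
  by_cases h0 : F = 0
  · rw [h0]; simp
  have hsp := IsAlgClosed.splits F
  rw [hsp.eval_eq_prod_roots w, hsp.eval_eq_prod_roots z, norm_mul, norm_mul]
  have h1 := multiset_prod_le F.roots z w d hd
    (fun ζ hζ => hz ζ ((mem_roots h0).mp hζ))
  have hcard : Multiset.card F.roots ≤ m := (card_roots' F).trans hF
  have h2 : (1 + ‖w - z‖ / d) ^ (Multiset.card F.roots) ≤ (1 + ‖w - z‖ / d) ^ m := by
    apply pow_le_pow_right₀ _ hcard
    have : 0 ≤ ‖w - z‖ / d := by positivity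
    linarith
  calc ‖F.leadingCoeff‖ * ‖(F.roots.map (w - ·)).prod‖
      ≤ ‖F.leadingCoeff‖ * ((1 + ‖w - z‖ / d) ^ m * ‖(F.roots.map (z - ·)).prod‖) := by
        apply mul_le_mul_of_nonneg_left _ (norm_nonneg _)
        exact h1.trans (mul_le_mul_of_nonneg_right h2 (norm_nonneg _))
    _ = _ := by ring

lemma cauchy_one (Q : ℂ[X]) (w : ℂ) (s B : ℝ) (hs : 0 < s)
    (hB : ∀ v, ‖v - w‖ = s → ‖Q.eval v‖ ≤ B) : ‖(derivative Q).eval w‖ ≤ B / s := by
  have hd : DiffContOnCl ℂ (fun z => Q.eval z) (Metric.ball w s) :=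
    (Q.differentiable).diffContOnCl
  have := Complex.norm_deriv_le_of_forall_mem_sphere_norm_le hs hd
    (fun z hz => hB z (by simpa [mem_sphere_iff_norm] using hz))
  rwa [Polynomial.deriv] at this

lemma cauchy_two (Q : ℂ[X]) (w : ℂ) (s B : ℝ) (hs : 0 < s)
    (hB : ∀ v, ‖v - w‖ = s → ‖Q.eval v‖ ≤ B) :
    ‖(derivative (derivative Q)).eval w‖ ≤ 2 * B / s ^ 2 := by
  have hd : DiffContOnCl ℂ (fun z => Q.eval z) (Metric.ball w s) :=
    (Q.differentiable).diffContOnCl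
  have := Complex.norm_iteratedDeriv_le_of_forall_mem_sphere_norm_le 2 hs hd
    (fun z hz => hB z (by simpa [mem_sphere_iff_norm] using hz))
  have h2 : iteratedDeriv 2 (fun z => Q.eval z) w = (derivative (derivative Q)).eval w := by
    rw [iteratedDeriv_succ, iteratedDeriv_one]
    have : deriv (fun z => Q.eval z) = fun z => (derivative Q).eval z := by
      funext z; exact Polynomial.deriv Q
    rw [this]; exact Polynomial.deriv _
  rw [h2] at this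
  simpa using this

/-- one application of the Hermite operator -/
lemma Lop_bound (c : ℂ) (Q : ℂ[X]) (z : ℂ) (s s' B : ℝ) (hs' : 0 < s')
    (hB : ∀ w, ‖w - z‖ ≤ s + s' → ‖Q.eval w‖ ≤ B) (w : ℂ) (hw : ‖w - z‖ ≤ s) :
    ‖(Lop c Q).eval w‖ ≤ (‖w‖ / s' + 1 / s' ^ 2 + ‖c‖) * B := by
  have hB' : ∀ v, ‖v - w‖ = s' → ‖Q.eval v‖ ≤ B := by
    intro v hv
    apply hB
    have := norm_add_le (v - w) (w - z)
    have e : v - w + (w - z) = v - z := by ring
    rw [e] at this; linarith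
  have h1 := cauchy_one Q w s' B hs' hB'
  have h2 := cauchy_two Q w s' B hs' hB'
  have h0 : ‖Q.eval w‖ ≤ B := hB w (by linarith)
  unfold Lop
  simp only [eval_sub, eval_mul, eval_X, eval_C]
  have e1 : ‖w * (derivative Q).eval w - 1/2 * (derivative (derivative Q)).eval w - c * Q.eval w‖
      ≤ ‖w‖ * ‖(derivative Q).eval w‖ + 1/2 * ‖(derivative (derivative Q)).eval w‖ + ‖c‖ * ‖Q.eval w‖ := by
    refine (norm_sub_le _ _).trans ?_
    rw [norm_mul c]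
    refine add_le_add ((norm_sub_le _ _).trans ?_) le_rfl
    rw [norm_mul, norm_mul]; simp
  refine e1.trans ?_
  have a1 : ‖w‖ * ‖(derivative Q).eval w‖ ≤ ‖w‖ * (B / s') := mul_le_mul_of_nonneg_left h1 (norm_nonneg _)
  have a2 : 1/2 * ‖(derivative (derivative Q)).eval w‖ ≤ 1/2 * (2 * B / s' ^ 2) := by
    linarith
  have a3 : ‖c‖ * ‖Q.eval w‖ ≤ ‖c‖ * B := mul_le_mul_of_nonneg_left h0 (norm_nonneg _)
  calc _ ≤ ‖w‖ * (B / s') + 1/2 * (2 * B / s' ^ 2) + ‖c‖ * B := by linarith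
    _ = _ := by field_simp

/-- the quadrinomial -/
noncomputable def Fq (n m : ℕ) (a b : ℂ) : ℂ[X] := He 0 + He 1 + C a * He n + C b * He m

lemma natDegree_Fq (n m : ℕ) (hn : n ≤ m) (hm : 1 ≤ m) (a b : ℂ) : (Fq n m a b).natDegree ≤ m := by
  unfold Fq
  refine (natDegree_add_le _ _).trans (max_le ?_ ?_)
  · refine (natDegree_add_le _ _).trans (max_le ?_ ?_)
    · refine (natDegree_add_le _ _).trans (max_le ?_ ?_)
      · rw [natDegree_He]; omega
      · rw [natDegree_He]; omega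
    · refine (natDegree_C_mul_le _ _).trans ?_
      rw [natDegree_He]; exact hn
  · refine (natDegree_C_mul_le _ _).trans ?_
    rw [natDegree_He]

lemma eval_Fq (n m : ℕ) (a b z : ℂ) :
    (Fq n m a b).eval z = 1 + 2 * z + a * (He n).eval z + b * (He m).eval z := by
  unfold Fq; rw [He_zero, He_one]; simp

lemma extract_b (n m : ℕ) (a b : ℂ) :
    Lop (n:ℂ) (Lop 1 (Lop 0 (Fq n m a b)))
      = C (b * ((m:ℂ) - 0) * ((m:ℂ) - 1) * ((m:ℂ) - n)) * He m := by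
  unfold Fq
  simp only [Lop_add, Lop_C_mul, Lop_He]
  simp only [Nat.cast_zero, Nat.cast_one, sub_self, map_zero, zero_mul, sub_zero, C_mul, C_sub, map_one,
    mul_zero, add_zero, zero_add]
  ring

lemma extract_a (n m : ℕ) (a b : ℂ) :
    Lop (m:ℂ) (Lop 1 (Lop 0 (Fq n m a b)))
      = C (a * ((n:ℂ) - 0) * ((n:ℂ) - 1) * ((n:ℂ) - m)) * He n := by
  unfold Fq
  simp only [Lop_add, Lop_C_mul, Lop_He]
  simp only [Nat.cast_zero, Nat.cast_one, sub_self, map_zero, zero_mul, sub_zero, C_mul, C_sub, map_one,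
    mul_zero, add_zero, zero_add]
  ring

lemma extract_01 (n m : ℕ) (a b : ℂ) :
    Lop (m:ℂ) (Lop (n:ℂ) (Fq n m a b))
      = C ((n:ℂ) * m) + C (((n:ℂ) - 1) * ((m:ℂ) - 1)) * He 1 := by
  unfold Fq
  simp only [Lop_add, Lop_C_mul, Lop_He]
  simp only [Nat.cast_zero, Nat.cast_one, sub_self, map_zero, zero_mul, sub_zero, C_mul, C_sub, map_one,
    mul_zero, add_zero, zero_add, He_zero]
  ring

/-- triple application: bound by `E * |F z|` -/
lemma triple_bound (F : ℂ[X]) (m : ℕ) (hm : 1 ≤ m) (hF : F.natDegree ≤ m) (c₃ : ℂ) (hc₃ : ‖c₃‖ ≤ m)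
    (r : ℝ) (hr : 3 ≤ r) (hz : ∀ ζ, F.eval ζ = 0 → 2 * r ≤ ‖ζ‖) (z : ℂ) (hzr : ‖z‖ ≤ r) :
    ‖(Lop c₃ (Lop 1 (Lop 0 F))).eval z‖ ≤ ((r + 4) * (m:ℝ)^2) ^ 3 * 3 * ‖F.eval z‖ := by
  have hm' : (1:ℝ) ≤ m := by exact_mod_cast hm
  set s : ℝ := 1 / m with hs
  have hspos : 0 < s := by positivity
  have hs1 : s ≤ 1 := by rw [hs, div_le_one (by linarith)]; exact hm'
  set B : ℝ := 3 * ‖F.eval z‖ with hB
  have hBnn : 0 ≤ B := by positivity
  -- bound of F in the ball of radius 3s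
  have h0 : ∀ w, ‖w - z‖ ≤ 2 * s + s → ‖F.eval w‖ ≤ B := by
    intro w hw
    have h1 := growth F m hF z w r (by linarith) (by
      intro ζ hζ
      have := hz ζ hζ
      have h2 := norm_sub_norm_le ζ z
      rw [norm_sub_rev] at h2
      linarith)
    refine h1.trans ?_
    apply mul_le_mul_of_nonneg_right _ (norm_nonneg _)
    have h3 : 1 + ‖w - z‖ / r ≤ 1 + 1 / m := by
      have : ‖w - z‖ / r ≤ 1 / m := by
        rw [div_le_iff₀ (by linarith)]
        calc ‖w - z‖ ≤ 3 * s := by linarith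
          _ = 1 / m * 3 := by rw [hs]; ring
          _ ≤ 1 / m * r := by
            apply mul_le_mul_of_nonneg_left hr (by positivity)
      linarith
    have h4 : (1 + ‖w - z‖ / r) ^ m ≤ (1 + 1 / (m:ℝ)) ^ m := by
      apply pow_le_pow_left₀ _ h3
      positivity
    refine h4.trans ?_
    have h5 : (1 + 1 / (m:ℝ)) ^ m ≤ Real.exp 1 := by
      have h6 : 1 + 1 / (m:ℝ) ≤ Real.exp (1 / m) := by
        have := Real.add_one_le_exp (1 / (m:ℝ)); linarith
      calc (1 + 1 / (m:ℝ)) ^ m ≤ (Real.exp (1 / m)) ^ m := pow_le_pow_left₀ (by positivity) h6 m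
        _ = Real.exp 1 := by
          rw [← Real.exp_nat_mul]; congr 1; field_simp
    exact h5.trans (by have := Real.exp_one_lt_d9; linarith)
  have hcoef : ∀ (c w : ℂ), ‖c‖ ≤ m → ‖w‖ ≤ r + 2 → ‖w‖ / s + 1 / s ^ 2 + ‖c‖ ≤ (r + 4) * (m:ℝ)^2 := by
    intro c w hc hw
    have e1 : ‖w‖ / s = ‖w‖ * m := by rw [hs]; field_simp
    have e2 : 1 / s ^ 2 = (m:ℝ)^2 := by rw [hs]; field_simp
    rw [e1, e2]
    have : (m:ℝ) ≤ (m:ℝ)^2 := by nlinarith
    have h1 : ‖w‖ * m ≤ (r+2) * (m:ℝ)^2 := by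
      apply mul_le_mul hw this (by linarith) (by linarith)
    nlinarith
  have hwle : ∀ w, ‖w - z‖ ≤ 2 * s → ‖w‖ ≤ r + 2 := by
    intro w hw
    have := norm_sub_norm_le w z
    linarith
  have h1 : ∀ w, ‖w - z‖ ≤ s + s → ‖(Lop 0 F).eval w‖ ≤ ((r + 4) * (m:ℝ)^2) * B := by
    intro w hw
    have := Lop_bound 0 F z (2*s) s B hspos h0 w (by linarith)
    refine this.trans (mul_le_mul_of_nonneg_right ?_ hBnn)
    exact hcoef 0 w (by simp) (hwle w (by linarith))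
  have h2 : ∀ w, ‖w - z‖ ≤ 0 + s → ‖(Lop 1 (Lop 0 F)).eval w‖ ≤ ((r + 4) * (m:ℝ)^2) * (((r + 4) * (m:ℝ)^2) * B) := by
    intro w hw
    have := Lop_bound 1 (Lop 0 F) z s s _ hspos h1 w (by linarith)
    refine this.trans (mul_le_mul_of_nonneg_right ?_ (by positivity))
    exact hcoef 1 w (by simpa using hm') (hwle w (by linarith))
  have h3 := Lop_bound c₃ (Lop 1 (Lop 0 F)) z 0 s _ hspos h2 z (by simp)
  refine h3.trans ?_
  have := hcoef c₃ z hc₃ (by linarith)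
  calc (‖z‖ / s + 1 / s ^ 2 + ‖c₃‖) * (((r + 4) * (m:ℝ)^2) * (((r + 4) * (m:ℝ)^2) * B))
      ≤ ((r + 4) * (m:ℝ)^2) * (((r + 4) * (m:ℝ)^2) * (((r + 4) * (m:ℝ)^2) * B)) :=
        mul_le_mul_of_nonneg_right this (by positivity)
    _ = _ := by rw [hB]; ring

/-- `|b H_m(z)| ≤ E |F(z)|` and the same for `a`, with `E = 3((r+4)m²)³` -/
lemma term_bounds (n m : ℕ) (hn : 2 ≤ n) (hnm : n < m) (a b : ℂ) (r : ℝ) (hr : 3 ≤ r)
    (hz : ∀ ζ, (Fq n m a b).eval ζ = 0 → 2 * r ≤ ‖ζ‖) (z : ℂ) (hzr : ‖z‖ ≤ r) :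
    ‖a‖ * ‖(He n).eval z‖ ≤ ((r + 4) * (m:ℝ)^2) ^ 3 * 3 * ‖(Fq n m a b).eval z‖ ∧
    ‖b‖ * ‖(He m).eval z‖ ≤ ((r + 4) * (m:ℝ)^2) ^ 3 * 3 * ‖(Fq n m a b).eval z‖ := by
  have hdeg := natDegree_Fq n m hnm.le (by omega) a b
  have key : ∀ (p : ℝ) (x : ℂ) (k : ℕ), 1 ≤ p → ‖x‖ * ‖(He k).eval z‖ ≤ p * (‖x‖ * ‖(He k).eval z‖) := by
    intro p x k hp
    have : 0 ≤ ‖x‖ * ‖(He k).eval z‖ := by positivity
    nlinarith
  have hn' : (2:ℝ) ≤ n := by exact_mod_cast hn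
  have hnm' : (n:ℝ) + 1 ≤ m := by exact_mod_cast hnm
  constructor
  · have h1 := triple_bound (Fq n m a b) m (by omega) hdeg (m:ℂ) (by simp) r hr hz z hzr
    rw [extract_a] at h1
    refine le_trans ?_ h1
    simp only [eval_mul, eval_C, norm_mul]
    have e1 : ‖((n:ℂ) - 0)‖ = n := by simp
    have e2 : ‖((n:ℂ) - 1)‖ = n - 1 := by
      have : ((n:ℂ) - 1) = (((n:ℝ) - 1 : ℝ) : ℂ) := by push_cast; ring
      rw [this, Complex.norm_real, Real.norm_of_nonneg (by linarith)]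
    have e3 : ‖((n:ℂ) - m)‖ = m - n := by
      have : ((n:ℂ) - m) = -(((m:ℝ) - n : ℝ) : ℂ) := by push_cast; ring
      rw [this, norm_neg, Complex.norm_real, Real.norm_of_nonneg (by linarith)]
    rw [e1, e2, e3]
    have hp : 1 ≤ (n:ℝ) * (n - 1) * (m - n) := by
      have h2 : 1 ≤ (n:ℝ) * (n - 1) := by nlinarith
      nlinarith
    calc _ ≤ _ := key _ a n hp
      _ = _ := by ring
  · have h1 := triple_bound (Fq n m a b) m (by omega) hdeg (n:ℂ) (by simp; linarith) r hr hz z hzr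
    rw [extract_b] at h1
    refine le_trans ?_ h1
    simp only [eval_mul, eval_C, norm_mul]
    have e1 : ‖((m:ℂ) - 0)‖ = m := by simp
    have e2 : ‖((m:ℂ) - 1)‖ = m - 1 := by
      have : ((m:ℂ) - 1) = (((m:ℝ) - 1 : ℝ) : ℂ) := by push_cast; ring
      rw [this, Complex.norm_real, Real.norm_of_nonneg (by linarith)]
    have e3 : ‖((m:ℂ) - n)‖ = m - n := by
      have : ((m:ℂ) - n) = (((m:ℝ) - n : ℝ) : ℂ) := by push_cast; ring
      rw [this, Complex.norm_real, Real.norm_of_nonneg (by linarith)]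
    rw [e1, e2, e3]
    have hp : 1 ≤ (m:ℝ) * (m - 1) * (m - n) := by
      have h2 : 1 ≤ (m:ℝ) * (m - 1) := by nlinarith
      nlinarith
    calc _ ≤ _ := key _ b m hp
      _ = _ := by ring

end Helper523.Herm
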